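import Pool.Agent.J4.H52.BSP.Main

/-!
# Axis-aligned partitions: no logarithmic loss
-/

set_option autoImplicit false

namespace Pool.Agent.J4.H52.BSP

open Finset Classical

noncomputable section

variable {d : ℕ}

/-- `t` is within `δ` of the wall `e`, on the inner side (`σ = true`: the wall is an upper wall). -/
def Near (σ : Bool) (e δ t : ℝ) : Prop := if σ then e - δ < t ∧ t < e else e < t ∧ t < e + δ

theorem Near.mono {σ : Bool} {e δ δ' t : ℝ} (h : Near σ e δ t) (hδ : δ ≤ δ') : Near σ e δ' t := by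
  unfold Near at *
  split_ifs at * <;> constructor <;> linarith [h.1, h.2]

theorem exists_near (σ : Bool) (e : ℝ) {δ : ℝ} (hδ : 0 < δ) : ∃ t, Near σ e δ t := by
  cases σ
  · exact ⟨e + δ / 2, by simp only [Near]; constructor <;> simp <;> linarith⟩
  · exact ⟨e - δ / 2, by simp only [Near]; constructor <;> simp <;> linarith⟩

variable (c : Conf d)

/-- The state of a gadget in a box-shaped cell: the walls in the directions of `I`. The centre of the
region in the remaining directions is `y`, its radius is `ρ`. -/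
structure Wd (C : Set (Fin d → ℝ)) (g : c.G) (I : Finset (Fin d)) (σ : Fin d → Bool)
    (e : Fin d → ℝ) (δ : ℝ) (y : Fin d → ℝ) (ρ : ℝ) : Prop where
  hT : c.T ⊆ I
  hδ : 0 < δ
  hρ : 0 < ρ
  hwall : ∀ i ∈ I, i ∉ c.T → |e i - c.ctr g i| < 1 / 4 ∧
    (σ i = true → ∀ x ∈ C, x i < e i) ∧ (σ i = false → ∀ x ∈ C, e i < x i)
  hin : ∀ x : Fin d → ℝ, (∀ i ∈ I, Near (σ i) (e i) δ (x i)) → (∀ i ∉ I, |x i - y i| < ρ) →
    x ∈ C ∧ ∀ i ∈ I, |x i - c.ctr g i| < 1 / 4

/-- Phase 1 (`I.card < k`) or phase 2 (`I.card = k`). -/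
def Inv (C : Set (Fin d → ℝ)) (g : c.G) : Prop :=
  ∃ I σ e δ, (I.card < c.k ∧ Wd c C g I σ e δ (c.ctr g) (1 / 4)) ∨
    (I.card = c.k ∧ Wd c C g I σ e δ (c.z I g) δ)

/-- the half-spaces of an axis-parallel hyperplane -/
def Lo (i : Fin d) (b : ℝ) : Set (Fin d → ℝ) := {x | x i < b}
/-- the half-spaces of an axis-parallel hyperplane -/
def Hi (i : Fin d) (b : ℝ) : Set (Fin d → ℝ) := {x | b < x i}

theorem axis_low_high {a : Fin d → ℝ} (ha : a ≠ 0) {i : Fin d} (hi : ∀ j, j ≠ i → a j = 0) (b : ℝ) :
    (low a b = Lo i (b / a i) ∧ high a b = Hi i (b / a i)) ∨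
      (low a b = Hi i (b / a i) ∧ high a b = Lo i (b / a i)) := by
  have hai : a i ≠ 0 := by
    intro h
    apply ha
    funext j
    by_cases hj : j = i
    · subst hj; exact h
    · exact hi j hj
  have hsum : ∀ x : Fin d → ℝ, ∑ j, a j * x j = a i * x i := by
    intro x
    rw [Finset.sum_eq_single i]
    · intro j _ hj; rw [hi j hj, zero_mul]
    · simp
  rcases lt_or_gt_of_ne hai with h | h
  · right
    constructor <;> ext x <;> simp only [low, high, Lo, Hi, Set.mem_ofPred_eq, hsum]
    · rw [div_lt_iff_of_neg h, mul_comm]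
    · rw [lt_div_iff_of_neg h, mul_comm]
  · left
    constructor <;> ext x <;> simp only [low, high, Lo, Hi, Set.mem_ofPred_eq, hsum]
    · rw [lt_div_iff₀ h, mul_comm]
    · rw [div_lt_iff₀ h, mul_comm]

/-- Passing to a smaller cell in the same state. -/
theorem Wd.sub {C C' : Set (Fin d → ℝ)} {g : c.G} {I : Finset (Fin d)} {σ : Fin d → Bool}
    {e : Fin d → ℝ} {δ : ℝ} {y : Fin d → ℝ} {ρ : ℝ} (h : Wd c C g I σ e δ y ρ) {δ' ρ' : ℝ}
    (hδ' : 0 < δ') (hρ' : 0 < ρ') (hδ : δ' ≤ δ) (hρ : ρ' ≤ ρ) (hC' : C' ⊆ C)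
    (hin : ∀ x : Fin d → ℝ, x ∈ C → (∀ i ∈ I, Near (σ i) (e i) δ' (x i)) →
      (∀ i ∉ I, |x i - y i| < ρ') → x ∈ C') : Wd c C' g I σ e δ' y ρ' where
  hT := h.hT
  hδ := hδ'
  hρ := hρ'
  hwall := fun i hi hiT => ⟨(h.hwall i hi hiT).1, fun hs x hx => (h.hwall i hi hiT).2.1 hs x (hC' hx),
    fun hs x hx => (h.hwall i hi hiT).2.2 hs x (hC' hx)⟩
  hin := fun x h1 h2 => by
    obtain ⟨g1, g2⟩ := h.hin x (fun i hi => (h1 i hi).mono hδ)
      (fun i hi => lt_of_lt_of_le (h2 i hi) hρ)
    exact ⟨hin x g1 h1 h2, g2⟩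

/-- A cut in a direction of `I`. -/
theorem Wd.cut_mem {C : Set (Fin d → ℝ)} {g : c.G} {I : Finset (Fin d)} {σ : Fin d → Bool}
    {e : Fin d → ℝ} {δ : ℝ} {y : Fin d → ℝ} {ρ : ℝ} (h : Wd c C g I σ e δ y ρ) {i : Fin d}
    (hi : i ∈ I) (b : ℝ) :
    ∃ δ', 0 < δ' ∧ δ' ≤ δ ∧ ∀ ρ', 0 < ρ' → ρ' ≤ ρ → (Wd c (C ∩ Lo i b) g I σ e δ' y ρ' ∨
      Wd c (C ∩ Hi i b) g I σ e δ' y ρ') := by
  by_cases hs : σ i = true
  · rcases le_or_gt (e i) b with hb | hb
    · refine ⟨δ, h.hδ, le_rfl, fun ρ' hρ0 hρ' => Or.inl (h.sub c h.hδ hρ0 le_rfl hρ'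
        Set.inter_subset_left fun x hx h1 _ => ⟨hx, ?_⟩)⟩
      have := h1 i hi
      rw [hs] at this
      simp only [Near, if_true] at this
      show x i < b
      linarith [this.2]
    · refine ⟨min δ (e i - b), lt_min h.hδ (by linarith), min_le_left _ _, fun ρ' hρ0 hρ' =>
        Or.inr (h.sub c (lt_min h.hδ (by linarith)) hρ0 (min_le_left _ _) hρ'
        Set.inter_subset_left fun x hx h1 _ => ⟨hx, ?_⟩)⟩
      have := h1 i hi
      rw [hs] at this
      simp only [Near, if_true] at this
      show b < x i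
      have h2 := min_le_right δ (e i - b)
      linarith [this.1]
  · rw [Bool.not_eq_true] at hs
    rcases le_or_gt b (e i) with hb | hb
    · refine ⟨δ, h.hδ, le_rfl, fun ρ' hρ0 hρ' => Or.inr (h.sub c h.hδ hρ0 le_rfl hρ'
        Set.inter_subset_left fun x hx h1 _ => ⟨hx, ?_⟩)⟩
      have := h1 i hi
      rw [hs] at this
      simp only [Near] at this
      show b < x i
      have h3 := this.1
      linarith
    · refine ⟨min δ (b - e i), lt_min h.hδ (by linarith), min_le_left _ _, fun ρ' hρ0 hρ' =>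
        Or.inl (h.sub c (lt_min h.hδ (by linarith)) hρ0 (min_le_left _ _) hρ'
        Set.inter_subset_left fun x hx h1 _ => ⟨hx, ?_⟩)⟩
      have := h1 i hi
      rw [hs] at this
      simp only [Near] at this
      show x i < b
      have h2 := min_le_right δ (b - e i)
      have h3 := this.2
      linarith

/-- The step at a node. -/
theorem Inv.step (hw0 : c.w0 ≤ 1 / 8) {C : Set (Fin d → ℝ)} {g : c.G} (h : Inv c C g) (i : Fin d)
    (b : ℝ) :
    Inv c (C ∩ Lo i b) g ∨ Inv c (C ∩ Hi i b) g ∨
      ∃ I σ e δ, I.card = c.k ∧ Wd c C g I σ e δ (c.z I g) δ ∧ i ∉ I ∧ b = c.z I g i := by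
  obtain ⟨I, σ, e, δ, ⟨hI, hW⟩ | ⟨hI, hW⟩⟩ := h
  · by_cases hi : i ∈ I
    · obtain ⟨δ', _, _, h3⟩ := hW.cut_mem c hi b
      rcases h3 (1 / 4) (by norm_num) le_rfl with h | h
      · exact Or.inl ⟨I, σ, e, δ', Or.inl ⟨hI, h⟩⟩
      · exact Or.inr (Or.inl ⟨I, σ, e, δ', Or.inl ⟨hI, h⟩⟩)
    · rcases le_or_gt b (c.ctr g i - 1 / 4) with hb1 | hb1
      · refine Or.inr (Or.inl ⟨I, σ, e, δ, Or.inl ⟨hI, hW.sub c hW.hδ hW.hρ le_rfl le_rfl
          Set.inter_subset_left fun x hx _ h2 => ⟨hx, ?_⟩⟩⟩)
        have := (abs_lt.1 (h2 i hi)).1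
        show b < x i
        linarith
      · rcases le_or_gt (c.ctr g i + 1 / 4) b with hb2 | hb2
        · refine Or.inl ⟨I, σ, e, δ, Or.inl ⟨hI, hW.sub c hW.hδ hW.hρ le_rfl le_rfl
            Set.inter_subset_left fun x hx _ h2 => ⟨hx, ?_⟩⟩⟩
          have := (abs_lt.1 (h2 i hi)).2
          show x i < b
          linarith
        · -- the hyperplane hits the gadget
          left
          have hT := hW.hT
          have hδ0 := hW.hδ
          set δ' := min (min δ (b - (c.ctr g i - 1 / 4))) (1 / 8) with hδ'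
          have hδ'0 : 0 < δ' := lt_min (lt_min hδ0 (by linarith)) (by norm_num)
          have hδ'1 : δ' ≤ δ := (min_le_left _ _).trans (min_le_left _ _)
          have hδ'2 : δ' ≤ b - (c.ctr g i - 1 / 4) := (min_le_left _ _).trans (min_le_right _ _)
          have hδ'3 : δ' ≤ 1 / 8 := min_le_right _ _
          have hmain : ∀ (y : Fin d → ℝ) (ρ : ℝ), 0 < ρ →
              (∀ x : Fin d → ℝ, (∀ j ∉ insert i I, |x j - y j| < ρ) →
                ∀ j ∉ insert i I, |x j - c.ctr g j| < 1 / 4) →
              Wd c (C ∩ Lo i b) g (insert i I) (Function.update σ i true)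
                (Function.update e i b) δ' y ρ := by
            intro y ρ hρ hy
            refine ⟨hT.trans (Finset.subset_insert _ _), hδ'0, hρ, fun j hj hjT => ?_,
              fun x h1 h2 => ?_⟩
            · by_cases hji : j = i
              · subst hji
                rw [Function.update_self, Function.update_self]
                refine ⟨abs_lt.2 ⟨by linarith, by linarith⟩, fun _ x hx => hx.2, fun h => ?_⟩
                simp at h
              · rw [Function.update_of_ne hji, Function.update_of_ne hji]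
                have hjI : j ∈ I := by
                  rcases Finset.mem_insert.1 hj with h | h
                  · exact absurd h hji
                  · exact h
                obtain ⟨w1, w2, w3⟩ := hW.hwall j hjI hjT
                exact ⟨w1, fun hs x hx => w2 hs x hx.1, fun hs x hx => w3 hs x hx.1⟩
            · have hxi := h1 i (Finset.mem_insert_self _ _)
              rw [Function.update_self, Function.update_self] at hxi
              simp only [Near, if_true] at hxi
              have hxi' : |x i - c.ctr g i| < 1 / 4 := by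
                rw [abs_lt]
                constructor
                · linarith [hxi.1]
                · linarith [hxi.2]
              obtain ⟨g1, g2⟩ := hW.hin x (fun j hj => by
                have hji : j ≠ i := fun h => hi (h ▸ hj)
                have := h1 j (Finset.mem_insert_of_mem hj)
                rw [Function.update_of_ne hji, Function.update_of_ne hji] at this
                exact this.mono hδ'1) (fun j hj => by
                by_cases hji : j = i
                · subst hji; exact hxi'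
                · exact hy x h2 j (by rw [Finset.mem_insert, not_or]; exact ⟨hji, hj⟩))
              refine ⟨⟨g1, hxi.2⟩, fun j hj => ?_⟩
              rcases Finset.mem_insert.1 hj with rfl | hj'
              · exact hxi'
              · exact g2 j hj'
          refine ⟨insert i I, Function.update σ i true, Function.update e i b, δ', ?_⟩
          have hcard : (insert i I).card = I.card + 1 := Finset.card_insert_of_notMem hi
          rcases Nat.lt_or_ge (I.card + 1) c.k with hlt | hge
          · left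
            exact ⟨by omega, hmain _ _ (by norm_num) fun x h j hj => h j hj⟩
          · right
            have hck : (insert i I).card = c.k := by omega
            refine ⟨hck, hmain _ _ hδ'0 fun x h j hj => ?_⟩
            have e1 := h j hj
            have e2 : |c.z (insert i I) g j - c.ctr g j| < c.w0 := by
              refine lt_of_le_of_lt ?_ (c.hz (insert i I) g (hT.trans (Finset.subset_insert _ _)) hck)
              exact Finset.single_le_sum (f := fun j => |c.z (insert i I) g j - c.ctr g j|)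
                (fun _ _ => abs_nonneg _) (Finset.mem_compl.2 hj)
            rw [abs_lt] at e1 e2 ⊢
            constructor
            · linarith [e1.1, e2.1]
            · linarith [e1.2, e2.2]
  · by_cases hi : i ∈ I
    · obtain ⟨δ', h1, h2, h3⟩ := hW.cut_mem c hi b
      rcases h3 δ' h1 h2 with h | h
      · exact Or.inl ⟨I, σ, e, δ', Or.inr ⟨hI, h⟩⟩
      · exact Or.inr (Or.inl ⟨I, σ, e, δ', Or.inr ⟨hI, h⟩⟩)
    · rcases lt_trichotomy b (c.z I g i) with hb | hb | hb
      · right; left
        refine ⟨I, σ, e, min δ (c.z I g i - b), Or.inr ⟨hI, hW.sub c (lt_min hW.hδ (by linarith))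
          (lt_min hW.hδ (by linarith)) (min_le_left _ _) (min_le_left _ _)
          Set.inter_subset_left fun x hx _ h2 => ⟨hx, ?_⟩⟩⟩
        have e1 := (abs_lt.1 (h2 i hi)).1
        have e2 := min_le_right δ (c.z I g i - b)
        show b < x i
        linarith
      · right; right
        exact ⟨I, σ, e, δ, hI, hW, hi, hb⟩
      · left
        refine ⟨I, σ, e, min δ (b - c.z I g i), Or.inr ⟨hI, hW.sub c (lt_min hW.hδ (by linarith))
          (lt_min hW.hδ (by linarith)) (min_le_left _ _) (min_le_left _ _)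
          Set.inter_subset_left fun x hx _ h2 => ⟨hx, ?_⟩⟩⟩
        have e1 := (abs_lt.1 (h2 i hi)).2
        have e2 := min_le_right δ (b - c.z I g i)
        show x i < b
        linarith

/-- In phase 2 the flat meets the cell. -/
theorem Wd.meet {C : Set (Fin d → ℝ)} {g : c.G} {I : Finset (Fin d)} {σ : Fin d → Bool}
    {e : Fin d → ℝ} {δ : ℝ} (hI : I.card = c.k) (h : Wd c C g I σ e δ (c.z I g) δ) :
    (c.Fl I g ∩ C).Nonempty := by
  choose t ht using fun i => exists_near (σ i) (e i) h.hδ
  obtain ⟨h1, h2⟩ := h.hin (fun i => if i ∈ I then t i else c.z I g i)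
    (fun i hi => by simp only [hi, if_true]; exact ht i)
    (fun i hi => by simp only [hi, if_false, sub_self, abs_zero]; exact h.hδ)
  refine ⟨_, c.hmem I g h.hT hI _ (fun i hi => ?_) h2, h1⟩
  simp [hi]

/-- In phase 1 all flats meet the cell. -/
theorem Wd.meet1 (hw0 : c.w0 ≤ 1 / 8) {C : Set (Fin d → ℝ)} {g : c.G} {I K : Finset (Fin d)}
    {σ : Fin d → Bool} {e : Fin d → ℝ} {δ : ℝ} (hIK : I ⊆ K) (hK : K.card = c.k)
    (h : Wd c C g I σ e δ (c.ctr g) (1 / 4)) :
    (c.Fl K g ∩ C).Nonempty := by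
  have hTK := h.hT.trans hIK
  choose t ht using fun i => exists_near (σ i) (e i) h.hδ
  have hz : ∀ i ∉ K, |c.z K g i - c.ctr g i| < 1 / 4 := by
    intro i hi
    have e2 : |c.z K g i - c.ctr g i| < c.w0 := by
      refine lt_of_le_of_lt ?_ (c.hz K g hTK hK)
      exact Finset.single_le_sum (f := fun j => |c.z K g j - c.ctr g j|)
        (fun _ _ => abs_nonneg _) (Finset.mem_compl.2 hi)
    linarith
  obtain ⟨h1, h2⟩ := h.hin (fun i => if i ∈ I then t i else if i ∈ K then c.ctr g i else c.z K g i)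
    (fun i hi => by simp only [hi, if_true]; exact ht i)
    (fun i hi => by
      simp only [hi, if_false]
      by_cases hiK : i ∈ K
      · simp [hiK]
      · simp only [hiK, if_false]; exact hz i hiK)
  refine ⟨_, c.hmem K g hTK hK _ (fun i hi => ?_) (fun i hi => ?_), h1⟩
  · have hiI : i ∉ I := fun h' => hi (hIK h')
    simp [hi, hiI]
  · by_cases hiI : i ∈ I
    · exact h2 i hiI
    · simp [hi, hiI]

/-- At a leaf a gadget is in phase 2. -/
theorem Inv.leaf (hw0 : c.w0 ≤ 1 / 8) {C : Set (Fin d → ℝ)}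
    (hC : Tree.Valid (c.S : Set (Set (Fin d → ℝ))) .leaf C) {g : c.G} (h : Inv c C g) :
    ∃ I σ e δ, I.card = c.k ∧ Wd c C g I σ e δ (c.z I g) δ := by
  obtain ⟨I, σ, e, δ, ⟨hI, hW⟩ | ⟨hI, hW⟩⟩ := h
  · exfalso
    have hk := c.hk
    obtain ⟨K, hIK, hK⟩ := Finset.exists_superset_card_eq (s := I) (n := c.k) hI.le
      (by rw [Fintype.card_fin]; omega)
    obtain ⟨x, hx⟩ : (K \ I).Nonempty := by
      rw [Finset.sdiff_nonempty]
      intro hh
      have := Finset.card_le_card hh
      omega
    obtain ⟨y, hy⟩ : (Kᶜ).Nonempty := by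
      rw [← Finset.card_pos, Finset.card_compl, Fintype.card_fin]
      omega
    rw [Finset.mem_sdiff] at hx
    rw [Finset.mem_compl] at hy
    set K' := insert y (K.erase x) with hK'
    have hIK' : I ⊆ K' := by
      intro i hi
      rw [hK', Finset.mem_insert, Finset.mem_erase]
      right
      refine ⟨?_, hIK hi⟩
      rintro rfl
      exact hx.2 hi
    have hcard : K'.card = c.k := by
      rw [hK', Finset.card_insert_of_notMem, Finset.card_erase_of_mem hx.1, hK]
      · have : 0 < K.card := Finset.card_pos.2 ⟨x, hx.1⟩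
        omega
      · rw [Finset.mem_erase]; tauto
    have e3 := hC _ (c.hS K g (hW.hT.trans hIK) hK) _ (c.hS K' g (hW.hT.trans hIK') hcard)
      (hW.meet1 c hw0 hIK hK) (hW.meet1 c hw0 hIK' hcard)
    have e4 := (c.hinj K g K' g (hW.hT.trans hIK) hK (hW.hT.trans hIK') hcard e3).1
    apply hy
    rw [e4, hK']
    exact Finset.mem_insert_self _ _
  · exact ⟨I, σ, e, δ, hI, hW⟩

/-- The walls in a cell are determined by their sides. -/
theorem Wd.wall_le {C : Set (Fin d → ℝ)} {g g' : c.G} {I : Finset (Fin d)} {σ σ' : Fin d → Bool}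
    {e e' : Fin d → ℝ} {δ δ' : ℝ} {y y' : Fin d → ℝ} {ρ ρ' : ℝ} (h : Wd c C g I σ e δ y ρ)
    (h' : Wd c C g' I σ' e' δ' y' ρ') {i : Fin d} (hi : i ∈ I) (hiT : i ∉ c.T) (hσ : σ i = σ' i) :
    (σ i = true → e' i ≤ e i) ∧ (σ i = false → e i ≤ e' i) := by
  choose t ht using fun i => exists_near (σ' i) (e' i) h'.hδ
  have hw := h.hwall i hi hiT
  constructor
  · intro hs
    by_contra hcon
    rw [not_le] at hcon
    -- a point of the cell close to the wall `e'`
    set v := max (e i) (e' i - δ' / 2) with hv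
    have hv1 : Near (σ' i) (e' i) δ' v := by
      rw [← hσ, hs]
      simp only [Near, if_true]
      have := h'.hδ
      constructor
      · have := le_max_right (e i) (e' i - δ' / 2)
        linarith
      · exact max_lt hcon (by linarith)
    obtain ⟨h1, _⟩ := h'.hin (fun j => if j ∈ I then (if j = i then v else t j) else y' j)
      (fun j hj => by
        simp only [hj, if_true]
        by_cases hji : j = i
        · subst hji; simpa using hv1
        · simp only [hji, if_false]; exact ht j)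
      (fun j hj => by simp only [hj, if_false, sub_self, abs_zero]; exact h'.hρ)
    have h2 := hw.2.1 hs _ h1
    simp only [hi, if_true] at h2
    exact absurd (le_max_left (e i) (e' i - δ' / 2)) (not_le.2 h2)
  · intro hs
    by_contra hcon
    rw [not_le] at hcon
    set v := min (e i) (e' i + δ' / 2) with hv
    have hv1 : Near (σ' i) (e' i) δ' v := by
      rw [← hσ, hs]
      simp only [Near]
      have := h'.hδ
      constructor
      · exact lt_min hcon (by linarith)
      · have := min_le_right (e i) (e' i + δ' / 2)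
        linarith
    obtain ⟨h1, _⟩ := h'.hin (fun j => if j ∈ I then (if j = i then v else t j) else y' j)
      (fun j hj => by
        simp only [hj, if_true]
        by_cases hji : j = i
        · subst hji; simpa using hv1
        · simp only [hji, if_false]; exact ht j)
      (fun j hj => by simp only [hj, if_false, sub_self, abs_zero]; exact h'.hρ)
    have h2 := hw.2.2 hs _ h1
    simp only [hi, if_true] at h2
    exact absurd (min_le_left (e i) (e' i + δ' / 2)) (not_le.2 h2)

/-- At most `2^d` gadgets of a flat share a cell in phase 2. -/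
theorem fiber_card (hw0 : c.w0 ≤ 1 / 8) (hc1 : ∀ g, ∀ i ∈ c.T, c.ctr g i = 1)
    {C : Set (Fin d → ℝ)} {F : Set (Fin d → ℝ)} (X : Finset c.G)
    (hX : ∀ g ∈ X, ∃ I σ e δ, I.card = c.k ∧ Wd c C g I σ e δ (c.z I g) δ ∧ c.Fl I g = F) :
    X.card ≤ 2 ^ d := by
  have hX' : ∀ g : X, ∃ I σ e δ, I.card = c.k ∧ Wd c C g.1 I σ e δ (c.z I g.1) δ ∧
      c.Fl I g.1 = F := fun g => hX g.1 g.2
  choose I σ e δ hI hW hF using hX'
  have : Fintype.card X ≤ Fintype.card (Fin d → Bool) := by
    apply Fintype.card_le_of_injective σ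
    intro g g' hgg
    apply Subtype.ext
    have e0 : c.Fl (I g) g.1 = c.Fl (I g') g'.1 := by rw [hF g, hF g']
    obtain ⟨hII, hzz⟩ := c.hinj (I g) g.1 (I g') g'.1 (hW g).hT (hI g) (hW g').hT (hI g') e0
    apply c.hctr
    intro i
    by_cases hi : i ∈ I g
    · by_cases hiT : i ∈ c.T
      · rw [hc1 _ i hiT, hc1 _ i hiT]; norm_num
      · have hW' := hW g'
        rw [← hII] at hW'
        have hσ : σ g i = σ g' i := by rw [hgg]
        have w1 := Wd.wall_le c (hW g) hW' hi hiT hσ
        have w2 := Wd.wall_le c hW' (hW g) hi hiT hσ.symm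
        have he : e g i = e g' i := by
          cases hs : σ g i
          · exact le_antisymm (w1.2 hs) (w2.2 (hσ ▸ hs))
          · exact le_antisymm (w2.1 (hσ ▸ hs)) (w1.1 hs)
        have d1 := ((hW g).hwall i hi hiT).1
        have d2 := (hW'.hwall i hi hiT).1
        rw [he] at d1
        rw [abs_lt] at d1 d2 ⊢
        constructor
        · linarith [d1.2, d2.1]
        · linarith [d1.1, d2.2]
    · have hz1 : |c.z (I g) g.1 i - c.ctr g.1 i| < c.w0 := by
        refine lt_of_le_of_lt ?_ (c.hz (I g) g.1 (hW g).hT (hI g))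
        exact Finset.single_le_sum (f := fun j => |c.z (I g) g.1 j - c.ctr g.1 j|)
          (fun _ _ => abs_nonneg _) (Finset.mem_compl.2 hi)
      have hi' : i ∉ I g' := hII ▸ hi
      have hz2 : |c.z (I g') g'.1 i - c.ctr g'.1 i| < c.w0 := by
        refine lt_of_le_of_lt ?_ (c.hz (I g') g'.1 (hW g').hT (hI g'))
        exact Finset.single_le_sum (f := fun j => |c.z (I g') g'.1 j - c.ctr g'.1 j|)
          (fun _ _ => abs_nonneg _) (Finset.mem_compl.2 hi')
      rw [← hzz i hi] at hz2
      rw [abs_lt] at hz1 hz2 ⊢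
      constructor
      · linarith [hz1.2, hz2.1]
      · linarith [hz1.1, hz2.2]
  rw [Fintype.card_coe, Fintype.card_fun, Fintype.card_bool, Fintype.card_fin] at this
  exact this

theorem card_le_of_fibers {G H : Type} (X : Finset G) (Y : Finset H) (n : ℕ) (φ : G → H)
    (hφ : ∀ g ∈ X, φ g ∈ Y) (hf : ∀ F ∈ Y, (X.filter fun g => φ g = F).card ≤ n) :
    X.card ≤ n * Y.card :=
  Finset.card_le_mul_card_image_of_maps_to hφ n hf

theorem Conf.axis (hw0 : c.w0 ≤ 1 / 8) (hc1 : ∀ g, ∀ i ∈ c.T, c.ctr g i = 1)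
    (hfix : ∀ K g, c.T ⊆ K → K.card = c.k → ∀ x ∈ c.Fl K g, ∀ i ∉ K, x i = c.z K g i)
    (B : Tree d) : ∀ (C : Set (Fin d → ℝ)) (X : Finset c.G),
      B.Valid (c.S : Set (Set (Fin d → ℝ))) C → B.AxisAligned → (∀ g ∈ X, Inv c C g) →
      X.card ≤ 2 ^ d * frag c.S B C := by
  induction B with
  | leaf =>
    intro C X hV _ hX
    rcases X.eq_empty_or_nonempty with rfl | ⟨g0, hg0⟩
    · simp
    · obtain ⟨I0, σ0, e0, δ0, hI0, hW0⟩ := (hX g0 hg0).leaf c hw0 hV
      have hm0 := hW0.meet c hI0
      have hS0 := c.hS I0 g0 hW0.hT hI0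
      have h1 : X.card ≤ 2 ^ d := by
        apply fiber_card c hw0 hc1 (C := C) (F := c.Fl I0 g0) X
        intro g hg
        obtain ⟨I, σ, e, δ, hI, hW⟩ := (hX g hg).leaf c hw0 hV
        exact ⟨I, σ, e, δ, hI, hW, hV _ (c.hS I g hW.hT hI) _ hS0 (hW.meet c hI) hm0⟩
      have h2 : 1 ≤ frag c.S .leaf C := by
        unfold frag
        have : leafs (c.Fl I0 g0) .leaf C + stored (c.Fl I0 g0) .leaf C ≤
            ∑ F ∈ c.S, (leafs F .leaf C + stored F .leaf C) :=
          Finset.single_le_sum (f := fun F => leafs F .leaf C + stored F .leaf C)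
            (fun _ _ => Nat.zero_le _) hS0
        refine le_trans ?_ this
        simp [leafs, stored, hm0]
      calc X.card ≤ 2 ^ d * 1 := by simpa using h1
        _ ≤ _ := Nat.mul_le_mul_left _ h2
  | node a b l r ihl ihr =>
    intro C X hV hA hX
    obtain ⟨ha, hVl, hVr⟩ := hV
    obtain ⟨⟨i, hi⟩, hAl, hAr⟩ := hA
    set X1 := X.filter fun g => Inv c (C ∩ low a b) g with hX1
    set X2 := X.filter fun g => Inv c (C ∩ high a b) g with hX2
    set X3 := X.filter fun g => ∃ I σ e δ, I.card = c.k ∧ Wd c C g I σ e δ (c.z I g) δ ∧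
      i ∉ I ∧ b / a i = c.z I g i with hX3
    have hcov : X ⊆ X1 ∪ X2 ∪ X3 := by
      intro g hg
      rw [Finset.mem_union, Finset.mem_union, hX1, hX2, hX3, Finset.mem_filter, Finset.mem_filter,
        Finset.mem_filter]
      rcases (hX g hg).step c hw0 i (b / a i) with h | h | h
      · rcases axis_low_high ha hi b with ⟨h1, h2⟩ | ⟨h1, h2⟩
        · rw [← h1] at h; exact Or.inl (Or.inl ⟨hg, h⟩)
        · rw [← h2] at h; exact Or.inl (Or.inr ⟨hg, h⟩)
      · rcases axis_low_high ha hi b with ⟨h1, h2⟩ | ⟨h1, h2⟩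
        · rw [← h2] at h; exact Or.inl (Or.inr ⟨hg, h⟩)
        · rw [← h1] at h; exact Or.inl (Or.inl ⟨hg, h⟩)
      · exact Or.inr ⟨hg, h⟩
    have hc : X.card ≤ X1.card + X2.card + X3.card :=
      (Finset.card_le_card hcov).trans ((Finset.card_union_le _ _).trans
        (Nat.add_le_add_right (Finset.card_union_le _ _) _))
    have e1 := ihl _ X1 hVl hAl (fun g hg => (Finset.mem_filter.1 hg).2)
    have e2 := ihr _ X2 hVr hAr (fun g hg => (Finset.mem_filter.1 hg).2)
    have e3 : X3.card ≤ 2 ^ d * (c.S.filter fun F => (F ∩ C).Nonempty ∧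
        ¬ (F ∩ (C ∩ low a b)).Nonempty ∧ ¬ (F ∩ (C ∩ high a b)).Nonempty).card := by
      have hch : ∀ g : c.G, ∃ F : Set (Fin d → ℝ), g ∈ X3 → ∃ I σ e δ, I.card = c.k ∧
          Wd c C g I σ e δ (c.z I g) δ ∧ i ∉ I ∧ b / a i = c.z I g i ∧ c.Fl I g = F := by
        intro g
        by_cases hg : g ∈ X3
        · obtain ⟨_, I, σ, e, δ, h1, h2, h3, h4⟩ := Finset.mem_filter.1 hg
          exact ⟨c.Fl I g, fun _ => ⟨I, σ, e, δ, h1, h2, h3, h4, rfl⟩⟩
        · exact ⟨∅, fun h => absurd h hg⟩
      choose φ hφ using hch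
      apply card_le_of_fibers X3 _ (2 ^ d) φ
      · intro g hg
        obtain ⟨I, σ, e, δ, h1, h2, h3, h4, h5⟩ := hφ g hg
        rw [Finset.mem_filter, ← h5]
        refine ⟨c.hS I g h2.hT h1, h2.meet c h1, ?_, ?_⟩
        · rintro ⟨x, hx1, _, hx2⟩
          have := hfix I g h2.hT h1 x hx1 i h3
          rcases axis_low_high ha hi b with ⟨q1, q2⟩ | ⟨q1, q2⟩
          · rw [q1] at hx2
            have : x i < b / a i := hx2
            linarith
          · rw [q1] at hx2
            have : b / a i < x i := hx2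
            linarith
        · rintro ⟨x, hx1, _, hx2⟩
          have := hfix I g h2.hT h1 x hx1 i h3
          rcases axis_low_high ha hi b with ⟨q1, q2⟩ | ⟨q1, q2⟩
          · rw [q2] at hx2
            have : b / a i < x i := hx2
            linarith
          · rw [q2] at hx2
            have : x i < b / a i := hx2
            linarith
      · intro F _
        apply fiber_card c hw0 hc1 (C := C) (F := F)
        intro g hg
        obtain ⟨hg1, hg2⟩ := Finset.mem_filter.1 hg
        obtain ⟨I, σ, e, δ, h1, h2, h3, h4, h5⟩ := hφ g hg1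
        exact ⟨I, σ, e, δ, h1, h2, h5.trans hg2⟩
    rw [frag_node]
    calc X.card ≤ X1.card + X2.card + X3.card := hc
      _ ≤ _ := Nat.add_le_add (Nat.add_le_add e1 e2) e3
      _ = _ := by ring

end

end Pool.Agent.J4.H52.BSP
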