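import Pool.Agent.J4.H52.BSP.Grid
import Pool.Agent.J4.H52.BSP.Axis

/-!
# The configuration
-/

set_option autoImplicit false

namespace Pool.Agent.J4.H52.BSP

open Finset Classical

noncomputable section

variable {d : ℕ}

/-- the integer centre of a gadget -/
def cpos {T : Finset (Fin d)} {N : ℕ} (g : ↥(Tᶜ) → Fin N) (i : Fin d) : ℕ :=
  if h : i ∈ Tᶜ then (g ⟨i, h⟩ : ℕ) + 1 else 1

/-- forget the coordinates in `K` -/
def mask (K : Finset (Fin d)) (q : Fin d → ℕ) : Fin d → ℕ := fun i => if i ∈ K then 0 else q i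

/-- the indices -/
def idxs (T : Finset (Fin d)) (k N : ℕ) : Finset (Idx d) :=
  (Finset.univ.filter fun K : Finset (Fin d) => T ⊆ K ∧ K.card = k).biUnion fun K =>
    (Fintype.piFinset fun i => if i ∈ K then {0} else Finset.Icc 1 N).image fun q => (K, q)

theorem mem_idxs {T : Finset (Fin d)} {k N : ℕ} {u : Idx d} :
    u ∈ idxs T k N ↔ (T ⊆ u.1 ∧ u.1.card = k) ∧ (∀ i ∈ u.1, u.2 i = 0) ∧
      ∀ i ∉ u.1, 1 ≤ u.2 i ∧ u.2 i ≤ N := by
  obtain ⟨K, q⟩ := u
  unfold idxs
  simp only [Finset.mem_biUnion, Finset.mem_filter, Finset.mem_univ, true_and, Finset.mem_image,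
    Fintype.mem_piFinset, Prod.mk.injEq]
  constructor
  · rintro ⟨K', hK', q', hq', rfl, rfl⟩
    refine ⟨hK', fun i hi => ?_, fun i hi => ?_⟩
    · have := hq' i
      simpa [hi] using this
    · have := hq' i
      simpa [hi] using this
  · rintro ⟨h1, h2, h3⟩
    refine ⟨K, h1, q, fun i => ?_, rfl, rfl⟩
    by_cases hi : i ∈ K
    · simp [hi, h2 i hi]
    · have := h3 i hi
      simp [hi, this.1, this.2]

theorem card_idxs (T : Finset (Fin d)) (k N : ℕ) : (idxs T k N).card ≤ 2 ^ d * N ^ (d - k) := by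
  unfold idxs
  refine Finset.card_biUnion_le.trans ?_
  have h1 : ∀ K ∈ (Finset.univ.filter fun K : Finset (Fin d) => T ⊆ K ∧ K.card = k),
      ((Fintype.piFinset fun i => if i ∈ K then {0} else Finset.Icc 1 N).image
        fun q => ((K, q) : Idx d)).card ≤ N ^ (d - k) := by
    intro K hK
    rw [Finset.mem_filter] at hK
    refine Finset.card_image_le.trans ?_
    rw [Fintype.card_piFinset]
    have : ∀ i, (if i ∈ K then ({0} : Finset ℕ) else Finset.Icc 1 N).card =
        if i ∈ K then 1 else N := by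
      intro i
      split_ifs <;> simp
    simp only [this]
    rw [Finset.prod_ite]
    simp only [Finset.prod_const_one, Finset.prod_const, one_mul]
    have e : (Finset.univ.filter fun i => i ∉ K) = Kᶜ := by
      ext i; simp
    rw [e, Finset.card_compl, Fintype.card_fin, hK.2.2]
  refine (Finset.sum_le_card_nsmul _ _ _ h1).trans ?_
  rw [smul_eq_mul]
  apply Nat.mul_le_mul_right
  refine (Finset.card_le_univ _).trans ?_
  rw [Fintype.card_finset, Fintype.card_fin]

theorem cpos_bd {T : Finset (Fin d)} {N : ℕ} (hN : 1 ≤ N) (g : ↥(Tᶜ) → Fin N) (i : Fin d) :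
    1 ≤ cpos g i ∧ cpos g i ≤ N := by
  unfold cpos
  split_ifs with h
  · have := (g ⟨i, h⟩).2
    omega
  · omega

theorem mask_mem {T : Finset (Fin d)} {k N : ℕ} (hN : 1 ≤ N) (g : ↥(Tᶜ) → Fin N)
    {K : Finset (Fin d)} (hT : T ⊆ K) (hK : K.card = k) :
    ((K, mask K (cpos g)) : Idx d) ∈ idxs T k N := by
  rw [mem_idxs]
  refine ⟨⟨hT, hK⟩, fun i hi => ?_, fun i hi => ?_⟩
  · simp only [mask]; simp only [hi, if_true]
  · simp only [mask]; simp only [hi, if_false]; exact cpos_bd hN g i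

theorem idxs_common {T : Finset (Fin d)} {k N e : ℕ} (hT : T.card + (e + 1) = k)
    (hd : k + (e + 1) < d) {u v : Idx d} (hu : u ∈ idxs T k N) (hv : v ∈ idxs T k N) :
    ∃ i, i ∉ u.1 ∧ i ∉ v.1 := by
  rw [mem_idxs] at hu hv
  have h1 := Finset.card_union_add_card_inter u.1 v.1
  have h2 : T.card ≤ (u.1 ∩ v.1).card :=
    Finset.card_le_card (Finset.subset_inter hu.1.1 hv.1.1)
  have h3 : (u.1 ∪ v.1).card < Fintype.card (Fin d) := by
    rw [Fintype.card_fin]
    rw [hu.1.2, hv.1.2] at h1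
    omega
  obtain ⟨i, hi⟩ : ((u.1 ∪ v.1)ᶜ).Nonempty := by
    rw [← Finset.card_pos, Finset.card_compl]
    omega
  rw [Finset.mem_compl, Finset.mem_union, not_or] at hi
  exact ⟨i, hi⟩

theorem grid (d k e N Λ : ℕ) (h1 : e + 1 ≤ k) (h2 : k + (e + 1) < d) (hN : 1 ≤ N) :
    ∃ S : Finset (Set (Fin d → ℝ)), S.card ≤ 2 ^ d * N ^ (d - k) ∧
      (∀ F ∈ S, ∀ F' ∈ S, F ≠ F' → Disjoint F F') ∧ (∀ F ∈ S, IsFatFlat k 1 F) ∧
      (∀ F ∈ S, ∀ x ∈ F, ∀ i, 0 ≤ x i) ∧
      (∀ B : Tree d, B.Valid (S : Set (Set (Fin d → ℝ))) Set.univ → B.size ≤ Λ →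
        N ^ (d - (k - (e + 1))) ≤ Hb e ((1 + d) * B.size)) ∧
      (∀ B : Tree d, B.Valid (S : Set (Set (Fin d → ℝ))) Set.univ → B.AxisAligned →
        N ^ (d - (k - (e + 1))) ≤ 2 ^ d * ((1 + d) * B.size)) := by
  obtain ⟨T, -, hTc⟩ := Finset.exists_subset_card_eq (s := (Finset.univ : Finset (Fin d)))
    (n := k - (e + 1)) (by rw [Finset.card_univ, Fintype.card_fin]; omega)
  have hT : T.card + (e + 1) = k := by omega
  obtain ⟨f, hf⟩ := Countable.exists_injective_nat (Idx d)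
  set s : Idx d → ℝ := fun u => (f u : ℝ) + 1 with hs
  have hs0 : ∀ u, 0 < s u := fun u => by
    have : (0 : ℝ) ≤ f u := Nat.cast_nonneg _
    simp only [hs]; linarith
  have hsinj : Function.Injective s := by
    intro u v huv
    simp only [hs] at huv
    apply hf
    have : (f u : ℝ) = f v := by linarith
    exact_mod_cast this
  set U := idxs T k N with hU
  -- bound for the labels
  set M : ℝ := ∑ u ∈ U, ∑ i : Fin d, s u ^ ((i : ℕ) + 1) + 1 with hM
  have hM1 : ∀ u ∈ U, ∀ i : Fin d, s u ^ ((i : ℕ) + 1) < M := by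
    intro u hu i
    have e1 : s u ^ ((i : ℕ) + 1) ≤ ∑ i : Fin d, s u ^ ((i : ℕ) + 1) :=
      Finset.single_le_sum (f := fun i : Fin d => s u ^ ((i : ℕ) + 1))
        (fun _ _ => (pow_pos (hs0 u) _).le) (Finset.mem_univ i)
    have e2 : ∑ i : Fin d, s u ^ ((i : ℕ) + 1) ≤ ∑ u ∈ U, ∑ i : Fin d, s u ^ ((i : ℕ) + 1) :=
      Finset.single_le_sum (f := fun u => ∑ i : Fin d, s u ^ ((i : ℕ) + 1))
        (fun u _ => Finset.sum_nonneg fun _ _ => (pow_pos (hs0 u) _).le) hu
    linarith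
  have hM0 : 0 < M := by
    have : 0 ≤ ∑ u ∈ U, ∑ i : Fin d, s u ^ ((i : ℕ) + 1) :=
      Finset.sum_nonneg fun u _ => Finset.sum_nonneg fun _ _ => (pow_pos (hs0 u) _).le
    linarith
  -- the accuracy
  set w0 : ℝ := 1 / (8 * (2 * (1 + (Λ : ℝ))) ^ (e + 1) * (1 + (Λ : ℝ))) with hw0
  have hΛ : (0 : ℝ) ≤ Λ := Nat.cast_nonneg _
  have hpow1 : (1 : ℝ) ≤ (2 * (1 + (Λ : ℝ))) ^ (e + 1) := one_le_pow₀ (by linarith)
  have hw0pos : 0 < w0 := by rw [hw0]; positivity
  have hw08 : w0 ≤ 1 / 8 := by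
    rw [hw0]
    apply one_div_le_one_div_of_le (by norm_num)
    nlinarith
  have hscale : scale w0 Λ (e + 1) * (1 + (Λ : ℝ)) ≤ 1 / 4 := by
    unfold scale
    rw [hw0]
    have : (1 / (8 * (2 * (1 + (Λ : ℝ))) ^ (e + 1) * (1 + (Λ : ℝ)))) *
        (2 * (1 + (Λ : ℝ))) ^ (e + 1) * (1 + (Λ : ℝ)) = 1 / 8 := by
      field_simp
    rw [this]; norm_num
  have hd0 : (0 : ℝ) < (d : ℝ) + 1 := by
    have : (0 : ℝ) ≤ d := Nat.cast_nonneg _
    linarith
  obtain ⟨η, hη0, hη1, hη2⟩ := exists_eta U s hsinj.injOn (fun u i => (u.2 i : ℝ))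
    (w0 / ((d : ℝ) + 1) / M) (div_pos (div_pos hw0pos hd0) hM0)
  have hsm : ∀ u ∈ U, ∀ i : Fin d, η * s u ^ ((i : ℕ) + 1) < w0 / ((d : ℝ) + 1) := by
    intro u hu i
    calc η * s u ^ ((i : ℕ) + 1) ≤ η * M := by
          exact mul_le_mul_of_nonneg_left (hM1 u hu i).le hη0.le
      _ < w0 / ((d : ℝ) + 1) / M * M := mul_lt_mul_of_pos_right hη1 hM0
      _ = w0 / ((d : ℝ) + 1) := by field_simp
  have hd1 : w0 / ((d : ℝ) + 1) ≤ 1 / 8 := by
    refine le_trans (div_le_self hw0pos.le ?_) hw08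
    have : (0 : ℝ) ≤ d := Nat.cast_nonneg _
    linarith
  have hsm1 : ∀ u ∈ U, ∀ i : Fin d, η * s u ^ ((i : ℕ) + 1) < 1 := by
    intro u hu i
    have := hsm u hu i
    linarith
  set L : ℝ := (N : ℝ) + 1 with hL
  have hN' : (1 : ℝ) ≤ N := by exact_mod_cast hN
  have hL0 : 0 < L := by rw [hL]; linarith
  have hcommon : ∀ u ∈ U, ∀ v ∈ U, ∃ i, i ∉ u.1 ∧ i ∉ v.1 := fun u hu v hv =>
    idxs_common hT h2 hu hv
  have hdisj : ∀ {u v : Idx d}, u ∈ U → v ∈ U → u ≠ v → Disjoint (flat s η L u) (flat s η L v) :=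
    fun {u v} hu hv huv => flat_disjoint hs0 hsinj hη0 hsm1 hcommon hu hv huv
  have hne : ∀ u ∈ U, (flat s η L u).Nonempty := by
    intro u hu
    refine ⟨lo s η u, mem_flat.2 ⟨fun i hi => ?_, fun i hi => ?_⟩⟩
    · simp only [lo, hi, if_true]; exact ⟨le_rfl, hL0.le⟩
    · simp only [lo, hi, if_false]
  have hinj' : ∀ {u v : Idx d}, u ∈ U → v ∈ U → flat s η L u = flat s η L v → u = v := by
    intro u v hu hv huv
    by_contra hcon
    have h := hdisj hu hv hcon
    rw [huv, disjoint_self] at h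
    exact (hne v hv).ne_empty h
  set ctr : (↥(Tᶜ) → Fin N) → Fin d → ℝ := fun g i => (cpos g i : ℝ) with hctr
  set Fl : Finset (Fin d) → (↥(Tᶜ) → Fin N) → Set (Fin d → ℝ) :=
    fun K g => flat s η L (K, mask K (cpos g)) with hFl
  set z : Finset (Fin d) → (↥(Tᶜ) → Fin N) → Fin d → ℝ :=
    fun K g => zz s η (K, mask K (cpos g)) with hz
  have hzeq : ∀ K g, ∀ i ∉ K, z K g i =
      ctr g i + η * s (K, mask K (cpos g)) ^ ((i : ℕ) + 1) := by
    intro K g i hi
    simp only [hz, zz, hctr, mask, hi, if_false]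
  set c : Conf d :=
    { G := ↥(Tᶜ) → Fin N
      ctr := ctr
      Fl := Fl
      z := z
      S := U.image (flat s η L)
      k := k
      T := T
      w0 := w0
      hk := by omega
      hw0 := hw0pos
      hS := fun K g hTK hK => Finset.mem_image_of_mem _ (mask_mem hN g hTK hK)
      hz := by
        intro K g hTK hK
        have hmem := mask_mem (k := k) hN g hTK hK
        have : ∑ i ∈ Kᶜ, |z K g i - ctr g i| ≤ ∑ i ∈ Kᶜ, w0 / ((d : ℝ) + 1) := by
          apply Finset.sum_le_sum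
          intro i hi
          rw [hzeq K g i (Finset.mem_compl.1 hi), add_sub_cancel_left,
            abs_of_pos (mul_pos hη0 (pow_pos (hs0 _) _))]
          exact (hsm _ hmem i).le
        refine lt_of_le_of_lt this ?_
        rw [Finset.sum_const, nsmul_eq_mul]
        have hle : ((Kᶜ).card : ℝ) ≤ d := by
          have : (Kᶜ).card ≤ d := by
            rw [Finset.card_compl, Fintype.card_fin]; omega
          exact_mod_cast this
        have hpos : 0 < w0 / ((d : ℝ) + 1) := by positivity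
        calc ((Kᶜ).card : ℝ) * (w0 / ((d : ℝ) + 1)) ≤ d * (w0 / ((d : ℝ) + 1)) :=
              mul_le_mul_of_nonneg_right hle hpos.le
          _ < ((d : ℝ) + 1) * (w0 / ((d : ℝ) + 1)) :=
              mul_lt_mul_of_pos_right (by linarith) hpos
          _ = w0 := by field_simp
      hmem := by
        intro K g hTK hK x hx1 hx2
        refine mem_flat.2 ⟨fun i hi => ?_, fun i hi => hx1 i hi⟩
        have e1 := abs_lt.1 (hx2 i hi)
        have e2 := cpos_bd hN g i
        have e3 : (1 : ℝ) ≤ (cpos g i : ℝ) := by exact_mod_cast e2.1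
        have e4 : (cpos g i : ℝ) ≤ N := by exact_mod_cast e2.2
        simp only [hctr] at e1
        constructor
        · linarith [e1.1]
        · rw [hL]; linarith [e1.2]
      hinj := by
        intro K g K' g' hTK hK hTK' hK' heq
        have := hinj' (mask_mem hN g hTK hK) (mask_mem hN g' hTK' hK') heq
        have hK0 : K = K' := (Prod.mk.inj this).1
        refine ⟨hK0, fun i _ => ?_⟩
        simp only [hz]
        rw [this]
      hctr := by
        intro g g' hgg
        funext i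
        have h := hgg i
        simp only [hctr, cpos, i.2, dif_pos] at h
        have e : ((g i : ℕ) : ℝ) + 1 - (((g' i : ℕ) : ℝ) + 1) = (g i : ℕ) - ((g' i : ℕ) : ℝ) := by
          ring
        push_cast at h
        rw [e, abs_lt] at h
        apply Fin.ext
        have a1 : ((g i : ℕ) : ℝ) < (g' i : ℕ) + 1 := by linarith [h.2]
        have a2 : ((g' i : ℕ) : ℝ) < (g i : ℕ) + 1 := by linarith [h.1]
        have a1' : (g i : ℕ) < (g' i : ℕ) + 1 := by exact_mod_cast a1
        have a2' : (g' i : ℕ) < (g i : ℕ) + 1 := by exact_mod_cast a2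
        omega } with hc
  have hcG : Fintype (Conf.G c) := inferInstanceAs (Fintype (↥(Tᶜ) → Fin N))
  have hcard : Fintype.card (Conf.G c) = N ^ (d - (k - (e + 1))) := by
    have : Nat.card (Conf.G c) = Nat.card (↥(Tᶜ) → Fin N) := rfl
    rw [← Nat.card_eq_fintype_card, this, Nat.card_fun, Nat.card_eq_fintype_card,
      Nat.card_eq_fintype_card, Fintype.card_fin, Fintype.card_coe, Finset.card_compl,
      Fintype.card_fin, hTc]
  have hc1 : ∀ g : c.G, ∀ i ∈ c.T, c.ctr g i = 1 := by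
    intro g i hi
    have hi' : ¬ i ∈ Tᶜ := by
      rw [Finset.mem_compl, not_not]; exact hi
    show ((cpos (T := T) (N := N) g i : ℕ) : ℝ) = 1
    unfold cpos
    rw [dif_neg hi']
    simp
  have hD : ∀ (a : Fin d → ℝ) (b : ℝ) (C : Set (Fin d → ℝ)), a ≠ 0 → IsOpen C →
      ((U.image (flat s η L)).filter fun F => (F ∩ C).Nonempty ∧ ¬ (F ∩ (C ∩ low a b)).Nonempty ∧
        ¬ (F ∩ (C ∩ high a b)).Nonempty).card ≤ d :=
    fun a b C ha hC => stored_card hL0 U hη2 a b C ha hC
  refine ⟨U.image (flat s η L), Finset.card_image_le.trans (card_idxs T k N), ?_, ?_, ?_, ?_, ?_⟩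
  · intro F hF F' hF' hne'
    obtain ⟨u, hu, rfl⟩ := Finset.mem_image.1 hF
    obtain ⟨v, hv, rfl⟩ := Finset.mem_image.1 hF'
    exact hdisj hu hv fun h => hne' (by rw [h])
  · intro F hF
    obtain ⟨u, hu, rfl⟩ := Finset.mem_image.1 hF
    have := flat_isFat (s := s) (η := η) hL0 u
    rwa [(mem_idxs.1 hu).1.2] at this
  · intro F hF x hx i
    obtain ⟨u, hu, rfl⟩ := Finset.mem_image.1 hF
    obtain ⟨g1, g2⟩ := mem_flat.1 hx
    by_cases hi : i ∈ u.1
    · exact (g1 i hi).1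
    · rw [g2 i hi]
      unfold zz
      have : 0 < η * s u ^ ((i : ℕ) + 1) := mul_pos hη0 (pow_pos (hs0 _) _)
      have : (0 : ℝ) ≤ (u.2 i : ℝ) := Nat.cast_nonneg _
      linarith
  · intro B hB hsize
    have := c.total e Λ hT hc1 hscale B hB hsize
    rw [hcard] at this
    exact this.trans (Hb_mono e (frag_le _ d hD B Set.univ isOpen_univ hB))
  · intro B hB hax
    have hfix : ∀ K g, c.T ⊆ K → K.card = c.k → ∀ x ∈ c.Fl K g, ∀ i ∉ K, x i = c.z K g i :=
      fun K g _ _ x hx i hi => (mem_flat.1 hx).2 i hi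
    have hinit : ∀ g ∈ (Finset.univ : Finset (Conf.G c)), Inv c Set.univ g := by
      intro g _
      refine ⟨T, fun _ => true, fun _ => 1, 1 / 8, Or.inl ⟨?_, ?_⟩⟩
      · show T.card < k
        omega
      · refine ⟨Finset.Subset.refl _, by norm_num, by norm_num, fun i hi hiT => absurd hi hiT,
          fun x h1 _ => ⟨Set.mem_univ _, fun i hi => ?_⟩⟩
        rw [hc1 g i hi]
        have := h1 i hi
        simp only [Near, if_true] at this
        rw [abs_lt]
        constructor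
        · linarith [this.1]
        · linarith [this.2]
    have := c.axis hw08 hc1 hfix B Set.univ Finset.univ hB hax hinit
    rw [Finset.card_univ, hcard] at this
    exact this.trans (Nat.mul_le_mul_left _ (frag_le _ d hD B Set.univ isOpen_univ hB))

end

end Pool.Agent.J4.H52.BSP
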