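import Pool.Agent.J4.H52.BSP.Defs

/-!
# Counting the pieces in a binary space partition
-/

set_option autoImplicit false

namespace Pool.Agent.J4.H52.BSP

open Finset Classical

noncomputable section

variable {d : ℕ}

/-- number of nodes whose hyperplane cuts the piece of `F` -/
def cross (F : Set (Fin d → ℝ)) : Tree d → Set (Fin d → ℝ) → ℕ
  | .leaf, _ => 0
  | .node a b l r, C =>
      (if (F ∩ (C ∩ low a b)).Nonempty ∧ (F ∩ (C ∩ high a b)).Nonempty then 1 else 0) +
        cross F l (C ∩ low a b) + cross F r (C ∩ high a b)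

/-- number of leaves that meet `F` -/
def leafs (F : Set (Fin d → ℝ)) : Tree d → Set (Fin d → ℝ) → ℕ
  | .leaf, C => if (F ∩ C).Nonempty then 1 else 0
  | .node a b l r, C => leafs F l (C ∩ low a b) + leafs F r (C ∩ high a b)

/-- number of nodes whose hyperplane contains the (nonempty) piece of `F` -/
def stored (F : Set (Fin d → ℝ)) : Tree d → Set (Fin d → ℝ) → ℕ
  | .leaf, _ => 0
  | .node a b l r, C =>
      (if (F ∩ C).Nonempty ∧ ¬ (F ∩ (C ∩ low a b)).Nonempty ∧ ¬ (F ∩ (C ∩ high a b)).Nonempty
        then 1 else 0) +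
        stored F l (C ∩ low a b) + stored F r (C ∩ high a b)

theorem count_aux (F : Set (Fin d → ℝ)) (B : Tree d) : ∀ C : Set (Fin d → ℝ),
    ((F ∩ C).Nonempty → leafs F B C + stored F B C = cross F B C + 1) ∧
    (¬ (F ∩ C).Nonempty → cross F B C = 0 ∧ leafs F B C = 0 ∧ stored F B C = 0) := by
  induction B with
  | leaf =>
    intro C
    constructor
    · intro h; simp [leafs, stored, cross, h]
    · intro h; simp [leafs, stored, cross, h]
  | node a b l r ihl ihr =>
    intro C
    have h1 : (F ∩ (C ∩ low a b)).Nonempty → (F ∩ C).Nonempty := by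
      rintro ⟨x, hx, hC, _⟩; exact ⟨x, hx, hC⟩
    have h2 : (F ∩ (C ∩ high a b)).Nonempty → (F ∩ C).Nonempty := by
      rintro ⟨x, hx, hC, _⟩; exact ⟨x, hx, hC⟩
    obtain ⟨l1, l2⟩ := ihl (C ∩ low a b)
    obtain ⟨r1, r2⟩ := ihr (C ∩ high a b)
    constructor
    · intro h
      by_cases hl : (F ∩ (C ∩ low a b)).Nonempty <;> by_cases hr : (F ∩ (C ∩ high a b)).Nonempty
      · have e1 := l1 hl
        have e2 := r1 hr
        simp only [leafs, stored, cross, h, hl, hr, and_self, if_true, not_true_eq_false, and_false,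
          if_false]
        omega
      · have e1 := l1 hl
        obtain ⟨f1, f2, f3⟩ := r2 hr
        simp only [leafs, stored, cross, h, hl, hr, and_self, if_true, not_true_eq_false, and_false,
          if_false, false_and, f1, f2, f3]
        omega
      · have e1 := r1 hr
        obtain ⟨f1, f2, f3⟩ := l2 hl
        simp only [leafs, stored, cross, h, hl, hr, and_self, if_true, not_true_eq_false, and_false,
          if_false, false_and, f1, f2, f3]
        omega
      · obtain ⟨f1, f2, f3⟩ := r2 hr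
        obtain ⟨g1, g2, g3⟩ := l2 hl
        simp only [leafs, stored, cross, h, hl, hr, and_self, if_true, not_false_eq_true, and_false,
          if_false, false_and, f1, f2, f3, g1, g2, g3]
    · intro h
      have hl : ¬ (F ∩ (C ∩ low a b)).Nonempty := fun h' => h (h1 h')
      have hr : ¬ (F ∩ (C ∩ high a b)).Nonempty := fun h' => h (h2 h')
      obtain ⟨f1, f2, f3⟩ := r2 hr
      obtain ⟨g1, g2, g3⟩ := l2 hl
      simp only [leafs, stored, cross, h, hl, hr, and_self,
        if_false, false_and, f1, f2, f3, g1, g2, g3, and_true, add_zero]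

theorem cross_le (F : Set (Fin d → ℝ)) (B : Tree d) (C : Set (Fin d → ℝ)) :
    cross F B C ≤ leafs F B C + stored F B C := by
  by_cases h : (F ∩ C).Nonempty
  · have := (count_aux F B C).1 h
    omega
  · have := (count_aux F B C).2 h
    omega

theorem sum_leafs (S : Finset (Set (Fin d → ℝ))) (B : Tree d) : ∀ C : Set (Fin d → ℝ),
    B.Valid (S : Set (Set (Fin d → ℝ))) C → ∑ F ∈ S, leafs F B C ≤ B.size := by
  induction B with
  | leaf =>
    intro C h
    simp only [leafs, Tree.size]
    rw [← Finset.card_filter, Finset.card_le_one]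
    intro s hs t ht
    rw [Finset.mem_filter] at hs ht
    exact h s hs.1 t ht.1 hs.2 ht.2
  | node a b l r ihl ihr =>
    intro C h
    obtain ⟨_, hl, hr⟩ := h
    have e1 := ihl _ hl
    have e2 := ihr _ hr
    simp only [leafs, Tree.size, Finset.sum_add_distrib]
    omega

theorem low_isOpen (a : Fin d → ℝ) (b : ℝ) : IsOpen (low a b) :=
  isOpen_lt (by fun_prop) continuous_const

theorem high_isOpen (a : Fin d → ℝ) (b : ℝ) : IsOpen (high a b) :=
  isOpen_lt continuous_const (by fun_prop)

theorem sum_stored (S : Finset (Set (Fin d → ℝ))) (D : ℕ)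
    (hD : ∀ (a : Fin d → ℝ) (b : ℝ) (C : Set (Fin d → ℝ)), a ≠ 0 → IsOpen C →
      (S.filter fun F => (F ∩ C).Nonempty ∧ ¬ (F ∩ (C ∩ low a b)).Nonempty ∧
        ¬ (F ∩ (C ∩ high a b)).Nonempty).card ≤ D) (B : Tree d) :
    ∀ C : Set (Fin d → ℝ), IsOpen C → B.Valid (S : Set (Set (Fin d → ℝ))) C →
      ∑ F ∈ S, stored F B C ≤ D * B.size := by
  induction B with
  | leaf =>
    intro C _ _
    simp [stored]
  | node a b l r ihl ihr =>
    intro C hC h
    obtain ⟨ha, hl, hr⟩ := h
    have e1 := ihl _ (hC.inter (low_isOpen a b)) hl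
    have e2 := ihr _ (hC.inter (high_isOpen a b)) hr
    have e3 := hD a b C ha hC
    simp only [stored, Tree.size, Finset.sum_add_distrib]
    rw [← Finset.card_filter]
    calc _ ≤ D + D * l.size + D * r.size := by
          exact Nat.add_le_add (Nat.add_le_add e3 e1) e2
      _ = D * (l.size + r.size + 1) := by ring

/-- The number of fragments of the objects of `S` in the leaves and stored at the nodes. -/
def frag (S : Finset (Set (Fin d → ℝ))) (B : Tree d) (C : Set (Fin d → ℝ)) : ℕ :=
  ∑ F ∈ S, (leafs F B C + stored F B C)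

theorem frag_le (S : Finset (Set (Fin d → ℝ))) (D : ℕ)
    (hD : ∀ (a : Fin d → ℝ) (b : ℝ) (C : Set (Fin d → ℝ)), a ≠ 0 → IsOpen C →
      (S.filter fun F => (F ∩ C).Nonempty ∧ ¬ (F ∩ (C ∩ low a b)).Nonempty ∧
        ¬ (F ∩ (C ∩ high a b)).Nonempty).card ≤ D) (B : Tree d)
    (C : Set (Fin d → ℝ)) (hC : IsOpen C) (hB : B.Valid (S : Set (Set (Fin d → ℝ))) C) :
    frag S B C ≤ (1 + D) * B.size := by
  unfold frag
  rw [Finset.sum_add_distrib]
  have h1 := sum_leafs S B C hB
  have h2 := sum_stored S D hD B C hC hB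
  calc _ ≤ B.size + D * B.size := Nat.add_le_add h1 h2
    _ = (1 + D) * B.size := by ring

theorem frag_node (S : Finset (Set (Fin d → ℝ))) (a : Fin d → ℝ) (b : ℝ) (l r : Tree d)
    (C : Set (Fin d → ℝ)) :
    frag S (.node a b l r) C =
      (S.filter fun F => (F ∩ C).Nonempty ∧ ¬ (F ∩ (C ∩ low a b)).Nonempty ∧
        ¬ (F ∩ (C ∩ high a b)).Nonempty).card + frag S l (C ∩ low a b) +
        frag S r (C ∩ high a b) := by
  unfold frag
  simp only [leafs, stored, Finset.sum_add_distrib]
  rw [← Finset.card_filter]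
  ring

end

end Pool.Agent.J4.H52.BSP
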