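import Mathlib

/-!
# Binary space partitions
-/

set_option autoImplicit false

namespace Pool.Agent.J4.H52.BSP

/-- A binary space partition tree of `ℝ^d`: every internal node carries a hyperplane
`{x | ∑ i, a i * x i = b}` and has two children, one for each open half-space. -/
inductive Tree (d : ℕ) : Type
  | leaf : Tree d
  | node (a : Fin d → ℝ) (b : ℝ) (l r : Tree d) : Tree d

/-- The number of nodes (internal nodes and leaves). -/
def Tree.size {d : ℕ} : Tree d → ℕ
  | .leaf => 1
  | .node _ _ l r => l.size + r.size + 1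

/-- The open half-space `∑ i, a i * x i < b`. -/
def low {d : ℕ} (a : Fin d → ℝ) (b : ℝ) : Set (Fin d → ℝ) := {x | ∑ i, a i * x i < b}

/-- The open half-space `b < ∑ i, a i * x i`. -/
def high {d : ℕ} (a : Fin d → ℝ) (b : ℝ) : Set (Fin d → ℝ) := {x | b < ∑ i, a i * x i}

/-- `Tree.Valid S B C`: the tree `B`, applied to the cell `C`, is a binary space partition for the
family `S` of convex objects. The splitting hyperplanes are hyperplanes (`a ≠ 0`), the children of a
node get the parts of the cell in the two open half-spaces, and every leaf cell meets at most one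
object of `S` (and so at most one fragment, as the objects and the cells are convex). -/
def Tree.Valid {d : ℕ} (S : Set (Set (Fin d → ℝ))) : Tree d → Set (Fin d → ℝ) → Prop
  | .leaf, C => ∀ s ∈ S, ∀ t ∈ S, (s ∩ C).Nonempty → (t ∩ C).Nonempty → s = t
  | .node a b l r, C => a ≠ 0 ∧ l.Valid S (C ∩ low a b) ∧ r.Valid S (C ∩ high a b)

/-- All splitting hyperplanes are orthogonal to coordinate axes. -/
def Tree.AxisAligned {d : ℕ} : Tree d → Prop
  | .leaf => True
  | .node a _ l r => (∃ i, ∀ j, j ≠ i → a j = 0) ∧ l.AxisAligned ∧ r.AxisAligned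

/-- `α`-fat axis-aligned `k`-flats: boxes with exactly `k` extents of positive length, the longest
at most `α` times the shortest. -/
def IsFatFlat {d : ℕ} (k : ℕ) (α : ℝ) (s : Set (Fin d → ℝ)) : Prop :=
  ∃ lo hi : Fin d → ℝ, (∀ i, lo i ≤ hi i) ∧ s = Set.Icc lo hi ∧
    (Finset.univ.filter fun i => lo i < hi i).card = k ∧
    ∀ i j, lo i < hi i → lo j < hi j → hi i - lo i ≤ α * (hi j - lo j)

end Pool.Agent.J4.H52.BSP
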