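import Pool.Agent.J4.H52.BSP.Config

/-!
# The asymptotic lower bounds
-/

set_option autoImplicit false

namespace Pool.Agent.J4.H52.BSP

open Finset Classical

noncomputable section

variable {d : ℕ}

theorem valid_mono {S S' : Set (Set (Fin d → ℝ))} (h : S ⊆ S') (B : Tree d) :
    ∀ C, B.Valid S' C → B.Valid S C := by
  induction B with
  | leaf => intro C hC s hs t ht; exact hC s (h hs) t (h ht)
  | node a b l r ihl ihr => rintro C ⟨ha, hl, hr⟩; exact ⟨ha, ihl _ hl, ihr _ hr⟩

theorem one_le_size (B : Tree d) : 1 ≤ B.size := by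
  cases B <;> simp [Tree.size]

/-- dummy flats -/
def dummy (K : Finset (Fin d)) (j : ℕ) : Set (Fin d → ℝ) :=
  Set.Icc (fun i => if i ∈ K then 0 else -((j : ℝ) + 1)) (fun i => if i ∈ K then 1 else -((j : ℝ) + 1))

theorem dummy_fat (K : Finset (Fin d)) (j : ℕ) : IsFatFlat K.card 1 (dummy K j) := by
  refine ⟨_, _, fun i => ?_, rfl, ?_, fun i i' hi hi' => ?_⟩
  · split_ifs <;> norm_num
  · congr 1
    ext i
    by_cases h : i ∈ K <;> simp [h]
  · by_cases h : i ∈ K
    · by_cases h' : i' ∈ K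
      · simp [h, h']
      · simp [h'] at hi'
    · simp [h] at hi

theorem dummy_eval {K : Finset (Fin d)} {j : ℕ} {x : Fin d → ℝ} (hx : x ∈ dummy K j) {i : Fin d}
    (hi : i ∉ K) : x i = -((j : ℝ) + 1) := by
  have e1 := hx.1 i
  have e2 := hx.2 i
  simp only [hi, if_false] at e1 e2
  exact le_antisymm e2 e1

theorem dummy_nonempty (K : Finset (Fin d)) (j : ℕ) : (dummy K j).Nonempty := by
  refine ⟨_, Set.left_mem_Icc.2 fun i => ?_⟩
  split_ifs <;> norm_num

theorem dummy_ne {K : Finset (Fin d)} {i : Fin d} (hi : i ∉ K) {j j' : ℕ}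
    (h : dummy K j = dummy K j') : j = j' := by
  obtain ⟨x, hx⟩ := dummy_nonempty K j
  have e1 := dummy_eval hx hi
  rw [h] at hx
  have e2 := dummy_eval hx hi
  have : (j : ℝ) = j' := by linarith
  exact_mod_cast this

theorem pad {k n : ℕ} (hk : k < d) (S : Finset (Set (Fin d → ℝ))) (hn : S.card ≤ n)
    (h1 : ∀ F ∈ S, ∀ F' ∈ S, F ≠ F' → Disjoint F F') (h2 : ∀ F ∈ S, IsFatFlat k 1 F)
    (h3 : ∀ F ∈ S, ∀ x ∈ F, ∀ i, 0 ≤ x i) :
    ∃ S' : Finset (Set (Fin d → ℝ)), S ⊆ S' ∧ S'.card = n ∧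
      (∀ F ∈ S', ∀ F' ∈ S', F ≠ F' → Disjoint F F') ∧ (∀ F ∈ S', IsFatFlat k 1 F) := by
  obtain ⟨K, -, hK⟩ := Finset.exists_subset_card_eq (s := (Finset.univ : Finset (Fin d)))
    (n := k) (by rw [Finset.card_univ, Fintype.card_fin]; omega)
  obtain ⟨i, hi⟩ : (Kᶜ).Nonempty := by
    rw [← Finset.card_pos, Finset.card_compl, Fintype.card_fin]; omega
  rw [Finset.mem_compl] at hi
  have hSD : ∀ F ∈ S, ∀ j, Disjoint F (dummy K j) := by
    intro F hF j
    rw [Set.disjoint_left]
    intro x hx hx'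
    have e1 := h3 F hF x hx i
    have e2 := dummy_eval hx' hi
    have : (0 : ℝ) ≤ j := Nat.cast_nonneg _
    linarith
  have hDD : ∀ j j', j ≠ j' → Disjoint (dummy K j) (dummy K j') := by
    intro j j' hjj
    rw [Set.disjoint_left]
    intro x hx hx'
    have e1 := dummy_eval hx hi
    have e2 := dummy_eval hx' hi
    apply hjj
    have : (j : ℝ) = j' := by linarith
    exact_mod_cast this
  refine ⟨S ∪ (Finset.range (n - S.card)).image (dummy K), Finset.subset_union_left, ?_, ?_, ?_⟩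
  · rw [Finset.card_union_of_disjoint, Finset.card_image_of_injective, Finset.card_range]
    · omega
    · intro j j' h; exact dummy_ne hi h
    · rw [Finset.disjoint_left]
      intro F hF hF'
      obtain ⟨j, _, rfl⟩ := Finset.mem_image.1 hF'
      have := hSD _ hF j
      rw [disjoint_self] at this
      exact (dummy_nonempty K j).ne_empty this
  · intro F hF F' hF' hne
    rcases Finset.mem_union.1 hF with h | h
    · rcases Finset.mem_union.1 hF' with h' | h'
      · exact h1 F h F' h' hne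
      · obtain ⟨j, _, rfl⟩ := Finset.mem_image.1 h'
        exact hSD F h j
    · obtain ⟨j, _, rfl⟩ := Finset.mem_image.1 h
      rcases Finset.mem_union.1 hF' with h' | h'
      · exact (hSD F' h' j).symm
      · obtain ⟨j', _, rfl⟩ := Finset.mem_image.1 h'
        exact hDD j j' fun h => hne (by rw [h])
  · intro F hF
    rcases Finset.mem_union.1 hF with h | h
    · exact h2 F h
    · obtain ⟨j, _, rfl⟩ := Finset.mem_image.1 h
      rw [← hK]; exact dummy_fat K j

/-- The lower bounds, for all `n`. -/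
theorem lower (d k e : ℕ) (h1 : e + 1 ≤ k) (h2 : k + (e + 1) < d) :
    ∃ c : ℝ, 0 < c ∧ ∀ n : ℕ, 1 ≤ n → ∃ S : Finset (Set (Fin d → ℝ)), S.card = n ∧
      (∀ F ∈ S, ∀ F' ∈ S, F ≠ F' → Disjoint F F') ∧ (∀ F ∈ S, IsFatFlat k 1 F) ∧
      ∀ B : Tree d, B.Valid (S : Set (Set (Fin d → ℝ))) Set.univ →
        c * (n : ℝ) ^ (((d - k + (e + 1) : ℕ) : ℝ) / ((d - k : ℕ) : ℝ)) / (1 + Real.log n) ^ e ≤
          (B.size : ℝ) ∧
        (B.AxisAligned → c * (n : ℝ) ^ (((d - k + (e + 1) : ℕ) : ℝ) / ((d - k : ℕ) : ℝ)) ≤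
          (B.size : ℝ)) := by
  set m := d - k with hm
  have hm0 : 0 < m := by omega
  have hmr : (0 : ℝ) < (m : ℝ) := by exact_mod_cast hm0
  set D := m + (e + 1) with hD
  have hDeq : d - (k - (e + 1)) = D := by omega
  have hDm : (D : ℝ) / m ≤ 2 := by
    rw [div_le_iff₀ hmr]
    have : D ≤ 2 * m := by omega
    exact_mod_cast this
  have hDm0 : (0 : ℝ) ≤ (D : ℝ) / m := by positivity
  set κ : ℝ := 2 ^ D * ((2 : ℝ) ^ d) ^ ((D : ℝ) / m) with hκ
  have hκ1 : 1 ≤ κ := by
    rw [hκ]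
    have e1 : (1 : ℝ) ≤ 2 ^ D := one_le_pow₀ (by norm_num)
    have e2 : (1 : ℝ) ≤ ((2 : ℝ) ^ d) ^ ((D : ℝ) / m) :=
      Real.one_le_rpow (one_le_pow₀ (by norm_num)) hDm0
    nlinarith
  have hlog2 : 0 < Real.log 2 := Real.log_pos (by norm_num)
  have hd0 : (0 : ℝ) ≤ (d : ℝ) := Nat.cast_nonneg _
  have hld : 0 ≤ Real.log (1 + (d : ℝ)) := Real.log_nonneg (by linarith)
  set c2 : ℝ := 1 + (Real.log (1 + (d : ℝ)) + 2) / Real.log 2 with hc2
  have hc21 : 1 ≤ c2 := by
    rw [hc2]
    have : 0 ≤ (Real.log (1 + (d : ℝ)) + 2) / Real.log 2 := by positivity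
    linarith
  have hc2e : 1 ≤ c2 ^ e := one_le_pow₀ hc21
  set Z : ℝ := κ * (2 ^ d * (1 + (d : ℝ))) * c2 ^ e with hZ
  have h2d : (1 : ℝ) ≤ 2 ^ d := one_le_pow₀ (by norm_num)
  have hq : (1 : ℝ) ≤ 2 ^ d * (1 + (d : ℝ)) := by nlinarith
  have hκq : 1 ≤ κ * (2 ^ d * (1 + (d : ℝ))) := by nlinarith
  have hZ1 : 1 ≤ Z := by rw [hZ]; nlinarith
  have hZ0 : 0 < Z := by linarith
  refine ⟨1 / Z, by positivity, fun n hn => ?_⟩
  have hnr : (1 : ℝ) ≤ n := by exact_mod_cast hn
  have hn0 : (0 : ℝ) ≤ n := by linarith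
  set A : ℝ := (n : ℝ) ^ ((D : ℝ) / m) with hA
  have hA1 : 1 ≤ A := Real.one_le_rpow hnr hDm0
  have hA2 : A ≤ (n : ℝ) ^ 2 := by
    rw [hA, ← Real.rpow_natCast]
    exact Real.rpow_le_rpow_of_exponent_le hnr (by exact_mod_cast hDm)
  have hlogn : 0 ≤ Real.log n := Real.log_nonneg hnr
  have hlge : 1 ≤ (1 + Real.log n) ^ e := one_le_pow₀ (by linarith)
  set x : ℝ := ((n : ℝ) / 2 ^ d) ^ ((1 : ℝ) / m) with hx
  have hx0 : 0 ≤ x := by rw [hx]; positivity
  have hxm : x ^ m = (n : ℝ) / 2 ^ d := by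
    rw [hx, ← Real.rpow_natCast, ← Real.rpow_mul (by positivity)]
    rw [one_div, inv_mul_cancel₀ (ne_of_gt hmr), Real.rpow_one]
  have hxD : (x / 2) ^ D = A / κ := by
    rw [div_pow, hx, ← Real.rpow_natCast (((n : ℝ) / 2 ^ d) ^ ((1 : ℝ) / m)),
      ← Real.rpow_mul (by positivity), hκ, hA]
    rw [show (1 : ℝ) / m * D = (D : ℝ) / m by ring, Real.div_rpow hn0 (by positivity)]
    field_simp
  set N := ⌊x⌋₊ with hN
  have hNx : (N : ℝ) ≤ x := Nat.floor_le hx0
  have hNm : 2 ^ d * N ^ m ≤ n := by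
    have : ((2 ^ d * N ^ m : ℕ) : ℝ) ≤ n := by
      push_cast
      calc (2 : ℝ) ^ d * (N : ℝ) ^ m ≤ 2 ^ d * x ^ m := by
            apply mul_le_mul_of_nonneg_left _ (by positivity)
            exact pow_le_pow_left₀ (Nat.cast_nonneg _) hNx _
        _ = n := by rw [hxm]; field_simp
    exact_mod_cast this
  rcases lt_or_ge x 1 with hx1 | hx1
  · -- few flats
    obtain ⟨S, -, hS1, hS2, hS3⟩ := pad (d := d) (k := k) (n := n) (by omega)
      (∅ : Finset (Set (Fin d → ℝ))) (by simp) (by simp) (by simp) (by simp)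
    refine ⟨S, hS1, hS2, hS3, fun B _ => ?_⟩
    have hB1 : (1 : ℝ) ≤ B.size := by exact_mod_cast one_le_size B
    have h4 : A / κ ≤ 1 := by
      rw [← hxD]
      exact pow_le_one₀ (by positivity) (by linarith)
    have h5 : 1 / Z * A ≤ A / κ := by
      rw [one_div_mul_eq_div]
      apply div_le_div_of_nonneg_left (by linarith) (by linarith)
      rw [hZ]
      have : κ * 1 * 1 ≤ κ * (2 ^ d * (1 + (d : ℝ))) * c2 ^ e := by
        apply mul_le_mul _ hc2e (by norm_num) (by positivity)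
        exact mul_le_mul_of_nonneg_left hq (by linarith)
      linarith
    have h6 : 1 / Z * A ≤ B.size := by linarith
    exact ⟨(div_le_self (by positivity) hlge).trans h6, fun _ => h6⟩
  · have hN1 : 1 ≤ N := Nat.one_le_floor_iff x |>.2 hx1
    have hNx2 : x / 2 ≤ N := by
      have h3 := Nat.lt_floor_add_one x
      rw [← hN] at h3
      have h4 : (1 : ℝ) ≤ N := by exact_mod_cast hN1
      rcases le_or_gt x 2 with h | h <;> linarith
    have hND : A / κ ≤ (N : ℝ) ^ D := by
      rw [← hxD]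
      exact pow_le_pow_left₀ (by positivity) hNx2 _
    obtain ⟨S0, g1, g2, g3, g4, g5, g6⟩ := grid d k e N (n ^ 2) h1 h2 hN1
    rw [hDeq] at g5 g6
    obtain ⟨S, hSS, hS1, hS2, hS3⟩ := pad (d := d) (k := k) (n := n) (by omega) S0
      (g1.trans hNm) g2 g3 g4
    refine ⟨S, hS1, hS2, hS3, fun B hB => ?_⟩
    have hB' := valid_mono (S := (S0 : Set (Set (Fin d → ℝ)))) (by exact_mod_cast hSS) B _ hB
    have hB1 : (1 : ℝ) ≤ B.size := by exact_mod_cast one_le_size B
    constructor
    · rcases Nat.lt_or_ge (n ^ 2) B.size with hbig | hsmall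
      · have h4 : ((n : ℝ)) ^ 2 ≤ B.size := by exact_mod_cast hbig.le
        have h5 : 1 / Z * A ≤ A := by
          rw [one_div_mul_eq_div]; exact div_le_self (by linarith) hZ1
        exact (div_le_self (by positivity) hlge).trans (by linarith)
      · have h4 := g5 B hB' hsmall
        unfold Hb at h4
        have h5 : ((N : ℝ)) ^ D ≤ ((1 + (d : ℝ)) * B.size) *
            (1 + (Nat.log 2 ((1 + d) * B.size) : ℝ)) ^ e := by exact_mod_cast h4
        have h6 : (Nat.log 2 ((1 + d) * B.size) : ℝ) ≤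
            (Real.log (1 + (d : ℝ)) + 2 * Real.log n) / Real.log 2 := by
          have hpos : (0 : ℝ) < (((1 + d) * B.size : ℕ) : ℝ) := by
            push_cast
            have : (0 : ℝ) < 1 + (d : ℝ) := by linarith
            exact mul_pos this (by linarith)
          have e1 : (Nat.log 2 ((1 + d) * B.size) : ℝ) ≤ Real.logb 2 (((1 + d) * B.size : ℕ) : ℝ) :=
            Real.natLog_le_logb _ _
          refine e1.trans ?_
          rw [Real.logb]
          apply div_le_div_of_nonneg_right _ hlog2.le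
          rw [show Real.log (1 + (d : ℝ)) + 2 * Real.log n = Real.log ((1 + (d : ℝ)) * (n : ℝ) ^ 2) by
            rw [Real.log_mul (by linarith) (by positivity), Real.log_pow]; push_cast; ring]
          apply Real.log_le_log hpos
          push_cast
          apply mul_le_mul_of_nonneg_left _ (by linarith)
          exact_mod_cast hsmall
        have h7 : 1 + (Nat.log 2 ((1 + d) * B.size) : ℝ) ≤ c2 * (1 + Real.log n) := by
          rw [hc2]
          have e1 : (1 + (Real.log (1 + (d : ℝ)) + 2) / Real.log 2) * (1 + Real.log n) -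
              (1 + (Real.log (1 + (d : ℝ)) + 2 * Real.log n) / Real.log 2) =
              Real.log n + (2 + Real.log (1 + (d : ℝ)) * Real.log n) / Real.log 2 := by
            field_simp
            ring
          have e2 : 0 ≤ Real.log n + (2 + Real.log (1 + (d : ℝ)) * Real.log n) / Real.log 2 := by
            positivity
          linarith
        have h8 : (1 + (Nat.log 2 ((1 + d) * B.size) : ℝ)) ^ e ≤ c2 ^ e * (1 + Real.log n) ^ e := by
          rw [← mul_pow]
          exact pow_le_pow_left₀ (by positivity) h7 _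
        have h9 : A / κ ≤ ((1 + (d : ℝ)) * B.size) * (c2 ^ e * (1 + Real.log n) ^ e) :=
          hND.trans (h5.trans (mul_le_mul_of_nonneg_left h8 (by positivity)))
        have hκ0 : 0 < κ := by linarith
        have hl0 : 0 < (1 + Real.log n) ^ e := by linarith
        rw [div_le_iff₀ hl0, one_div_mul_eq_div, div_le_iff₀ hZ0, hZ]
        rw [div_le_iff₀ hκ0] at h9
        calc A ≤ (1 + (d : ℝ)) * B.size * (c2 ^ e * (1 + Real.log n) ^ e) * κ := h9
          _ = (B.size * (1 + Real.log n) ^ e) * (κ * (1 * (1 + (d : ℝ))) * c2 ^ e) := by ring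
          _ ≤ (B.size * (1 + Real.log n) ^ e) * (κ * (2 ^ d * (1 + (d : ℝ))) * c2 ^ e) := by
            apply mul_le_mul_of_nonneg_left _ (by positivity)
            apply mul_le_mul_of_nonneg_right _ (by positivity)
            apply mul_le_mul_of_nonneg_left _ hκ0.le
            exact mul_le_mul_of_nonneg_right h2d (by linarith)
    · intro hax
      have h4 := g6 B hB' hax
      have h5 : ((N : ℝ)) ^ D ≤ 2 ^ d * ((1 + (d : ℝ)) * B.size) := by exact_mod_cast h4
      have hκ0 : 0 < κ := by linarith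
      have h9 := hND.trans h5
      rw [div_le_iff₀ hκ0] at h9
      rw [one_div_mul_eq_div, div_le_iff₀ hZ0, hZ]
      calc A ≤ 2 ^ d * ((1 + (d : ℝ)) * B.size) * κ := h9
        _ = B.size * (κ * (2 ^ d * (1 + (d : ℝ))) * 1) := by ring
        _ ≤ B.size * (κ * (2 ^ d * (1 + (d : ℝ))) * c2 ^ e) := by
          have hpos : 0 ≤ κ * (2 ^ d * (1 + (d : ℝ))) := zero_le_one.trans hκq
          have hstep := mul_le_mul_of_nonneg_left hc2e hpos
          exact mul_le_mul_of_nonneg_left hstep (zero_le_one.trans hB1)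

end

end Pool.Agent.J4.H52.BSP
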