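import Pool.Agent.J4.H52.BSP.Main

/-!
# The start of the induction and general position
-/

set_option autoImplicit false

namespace Pool.Agent.J4.H52.BSP

open Finset Classical

noncomputable section

variable {d : ℕ}

theorem aff_id : Aff (∅ : Finset (Fin d)) (fun x => x) :=
  ⟨fun _ _ _ => rfl, fun a => ⟨a, 0, by simp, fun x => by simp⟩⟩

theorem good_id {S : Set (Set (Fin d → ℝ))} (B : Tree d) :
    ∀ C, B.Valid S C → Good (fun x : Fin d → ℝ => x) B := by
  induction B with
  | leaf => intro _ _; trivial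
  | node a b l r ihl ihr =>
    rintro C ⟨ha, hl, hr⟩
    refine ⟨?_, ihl _ hl, ihr _ hr⟩
    by_cases hb : b = 0
    · obtain ⟨j, hj⟩ : ∃ j, a j ≠ 0 := by
        by_contra hcon
        push Not at hcon
        exact ha (funext hcon)
      refine ⟨Pi.single j 1, ?_⟩
      rw [Finset.sum_eq_single j]
      · simp [hb, hj]
      · intro i _ hij; simp [Pi.single_eq_of_ne hij]
      · simp
    · exact ⟨0, by simpa using Ne.symm hb⟩

theorem exists_init {S : Set (Set (Fin d → ℝ))} (B : Tree d) {C : Set (Fin d → ℝ)}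
    (hB : B.Valid S C) (T : Finset (Fin d)) :
    ∃ Φ, Aff T Φ ∧ Good Φ B ∧ ∀ x, ∀ i ∈ T, |Φ x i - 1| < 1 / 4 := by
  induction T using Finset.induction_on with
  | empty => exact ⟨_, aff_id, good_id B C hB, by simp⟩
  | insert i T hi ih =>
    obtain ⟨Φ, h1, h2, h3⟩ := ih
    have hfin := good_push h1 i 0 1 B h2
    have hinf : (Set.Ioo (0 : ℝ) (1 / 4)).Infinite := Set.Ioo_infinite (by norm_num)
    obtain ⟨τ, hτ1, hτ2⟩ := hinf.exists_notMem_finite hfin
    refine ⟨push Φ i 0 (1 + τ), aff_push h1 hi (by simp) _, by simpa using hτ2, fun x j hj => ?_⟩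
    rcases Finset.mem_insert.1 hj with rfl | hj'
    · unfold push
      rw [h1.1 _ j hi, Function.update_self]
      simp only [Pi.zero_apply, zero_mul, Finset.sum_const_zero, zero_add]
      rw [add_sub_cancel_left, abs_of_pos hτ1.1]
      exact hτ1.2
    · exact h3 _ j hj'

/-- The general lower bound. -/
theorem Conf.total (c : Conf d) [Fintype c.G] (e Λ : ℕ) (hT : c.T.card + (e + 1) = c.k)
    (hc1 : ∀ g, ∀ i ∈ c.T, c.ctr g i = 1) (hsc : scale c.w0 Λ (e + 1) * (1 + (Λ : ℝ)) ≤ 1 / 4)
    (B : Tree d) (hB : B.Valid (c.S : Set (Set (Fin d → ℝ))) Set.univ) (hs : B.size ≤ Λ) :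
    Fintype.card c.G ≤ Hb e (frag c.S B Set.univ) := by
  obtain ⟨Φ, h1, h2, h3⟩ := exists_init B hB c.T
  refine c.main Λ e B Set.univ Φ c.T Finset.univ (Finset.Subset.refl _) hT h1 h2 hB hs
    (fun g _ x hx => ⟨Set.mem_univ _, fun i => ?_⟩)
  by_cases hi : i ∈ c.T
  · rw [hc1 g i hi]; exact h3 x i hi
  · rw [h1.1 x i hi]
    have e1 : |x i - c.ctr g i| ≤ ∑ i ∈ (c.T)ᶜ, |x i - c.ctr g i| :=
      Finset.single_le_sum (f := fun i => |x i - c.ctr g i|) (fun _ _ => abs_nonneg _)
        (Finset.mem_compl.2 hi)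
    have e2 : scale c.w0 Λ (e + 1) * (1 + (B.size : ℝ)) ≤ scale c.w0 Λ (e + 1) * (1 + (Λ : ℝ)) := by
      apply mul_le_mul_of_nonneg_left _ (scale_pos c.hw0 _ _).le
      have : (B.size : ℝ) ≤ Λ := by exact_mod_cast hs
      linarith
    linarith

/-- General position: for suitable arbitrarily small `η`, no hyperplane contains `d + 1` of the
points `q + η (s, s², …, s^d)`. -/
theorem exists_eta {ι : Type} (U : Finset ι) (s : ι → ℝ) (hs : Set.InjOn s U)
    (q : ι → Fin d → ℝ) (ε : ℝ) (hε : 0 < ε) :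
    ∃ η : ℝ, 0 < η ∧ η < ε ∧ ∀ l : Fin (d + 1) → ι, Function.Injective l → (∀ r, l r ∈ U) →
      ∀ (a : Fin d → ℝ) (b : ℝ),
        (∀ r, ∑ i, a i * (q (l r) i + η * s (l r) ^ ((i : ℕ) + 1)) = b) → a = 0 := by
  -- the matrices
  set V : (Fin (d + 1) → U) → Matrix (Fin (d + 1)) (Fin (d + 1)) ℝ :=
    fun l => Matrix.vandermonde fun r => s (l r) with hV
  set A : (Fin (d + 1) → U) → Matrix (Fin (d + 1)) (Fin (d + 1)) ℝ :=
    fun l => Matrix.of fun r j => Fin.cases (0 : ℝ) (fun i => q (l r) i) j with hA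
  have hfin : ∀ l : Fin (d + 1) → U, Function.Injective l →
      {t : ℝ | (t • A l + V l).det = 0}.Finite := by
    intro l hl
    set P : Polynomial ℝ := Matrix.det ((Polynomial.X : Polynomial ℝ) •
      (A l).map (Polynomial.C : ℝ → Polynomial ℝ) + (V l).map (Polynomial.C : ℝ → Polynomial ℝ))
      with hP
    have hP0 : P.coeff 0 ≠ 0 := by
      rw [hP, Polynomial.coeff_det_X_add_C_zero, hV, Matrix.det_vandermonde_ne_zero_iff]
      intro r r' hrr
      exact hl (Subtype.ext (hs (l r).2 (l r').2 hrr))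
    have hPne : P ≠ 0 := by
      intro h; rw [h] at hP0; simp at hP0
    refine (P.rootSet_finite ℝ).subset ?_
    intro t ht
    have ht' : (t • A l + V l).det = 0 := ht
    rw [Polynomial.mem_rootSet]
    refine ⟨hPne, ?_⟩
    rw [Polynomial.coe_aeval_eq_eval, hP, ← Polynomial.coe_evalRingHom, RingHom.map_det, ← ht']
    congr 1
    ext r j
    simp [RingHom.mapMatrix_apply, Matrix.map_apply, Matrix.add_apply, Matrix.smul_apply]
    ring
  have hfin2 : (⋃ l : {l : Fin (d + 1) → U // Function.Injective l},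
      {t : ℝ | (t • A l.1 + V l.1).det = 0}).Finite :=
    Set.finite_iUnion fun l => hfin l.1 l.2
  obtain ⟨t, ht1, ht2⟩ := (Set.Ioi_infinite (1 / ε)).exists_notMem_finite hfin2
  have ht1' : 1 / ε < t := ht1
  have ht0 : 0 < t := lt_trans (by positivity) ht1'
  refine ⟨1 / t, by positivity, ?_, fun l hl hlU a b h => ?_⟩
  · rw [div_lt_iff₀ ht0]
    rw [div_lt_iff₀ hε] at ht1'
    linarith
  · set l' : Fin (d + 1) → U := fun r => ⟨l r, hlU r⟩ with hl'
    have hl'i : Function.Injective l' := by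
      intro r r' hrr
      exact hl (congrArg Subtype.val hrr)
    have hdet : (t • A l' + V l').det ≠ 0 := by
      intro h0
      apply ht2
      rw [Set.mem_iUnion]
      exact ⟨⟨l', hl'i⟩, h0⟩
    set u : Fin (d + 1) → ℝ := fun j => Fin.cases (-b) (fun i => 1 / t * a i) j with hu
    have hker : Matrix.mulVec (t • A l' + V l') u = 0 := by
      funext r
      simp only [Matrix.mulVec, dotProduct, Pi.zero_apply]
      rw [Fin.sum_univ_succ]
      have e0 : (t • A l' + V l') r 0 * u 0 = -b := by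
        simp [hA, hV, hu, Matrix.vandermonde_apply]
      have e1 : ∀ i : Fin d, (t • A l' + V l') r i.succ * u i.succ =
          a i * (q (l r) i + 1 / t * s (l r) ^ ((i : ℕ) + 1)) := by
        intro i
        simp only [hA, hV, hu, hl', Matrix.add_apply, Matrix.smul_apply, Matrix.of_apply,
          Matrix.vandermonde_apply, Fin.cases_succ, Fin.val_succ, smul_eq_mul]
        field_simp
      rw [e0, Finset.sum_congr rfl fun i _ => e1 i, h r]
      ring
    have hu0 := Matrix.eq_zero_of_mulVec_eq_zero hdet hker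
    funext i
    have := congrFun hu0 i.succ
    simp only [hu, Fin.cases_succ, Pi.zero_apply, mul_eq_zero] at this
    rcases this with h | h
    · exfalso
      have : (0 : ℝ) < 1 / t := by positivity
      linarith
    · simpa using h

end

end Pool.Agent.J4.H52.BSP
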