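import Pool.Agent.J4.H52.BSP.Generic

/-!
# The grid of flats
-/

set_option autoImplicit false

namespace Pool.Agent.J4.H52.BSP

open Finset Classical

noncomputable section

variable {d : ℕ}

/-- an index of a flat: its directions, and its position -/
abbrev Idx (d : ℕ) := Finset (Fin d) × (Fin d → ℕ)

/-- the fixed coordinates -/
def zz (s : Idx d → ℝ) (η : ℝ) (u : Idx d) (i : Fin d) : ℝ :=
  (u.2 i : ℝ) + η * s u ^ ((i : ℕ) + 1)

/-- the lower corner -/
def lo (s : Idx d → ℝ) (η : ℝ) (u : Idx d) (i : Fin d) : ℝ :=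
  if i ∈ u.1 then 0 else zz s η u i

/-- the upper corner -/
def hi (s : Idx d → ℝ) (η L : ℝ) (u : Idx d) (i : Fin d) : ℝ :=
  if i ∈ u.1 then L else zz s η u i

/-- the flat -/
def flat (s : Idx d → ℝ) (η L : ℝ) (u : Idx d) : Set (Fin d → ℝ) :=
  Set.Icc (lo s η u) (hi s η L u)

theorem mem_flat {s : Idx d → ℝ} {η L : ℝ} {u : Idx d} {x : Fin d → ℝ} :
    x ∈ flat s η L u ↔ (∀ i ∈ u.1, 0 ≤ x i ∧ x i ≤ L) ∧ ∀ i ∉ u.1, x i = zz s η u i := by
  unfold flat lo hi
  rw [Set.mem_Icc, Pi.le_def, Pi.le_def]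
  constructor
  · rintro ⟨h1, h2⟩
    refine ⟨fun i hi => ?_, fun i hi => ?_⟩
    · have e1 := h1 i
      have e2 := h2 i
      simp only [hi, if_true] at e1 e2
      exact ⟨e1, e2⟩
    · have e1 := h1 i
      have e2 := h2 i
      simp only [hi, if_false] at e1 e2
      exact le_antisymm e2 e1
  · rintro ⟨h1, h2⟩
    refine ⟨fun i => ?_, fun i => ?_⟩
    · by_cases hi : i ∈ u.1
      · simp only [hi, if_true]; exact (h1 i hi).1
      · simp only [hi, if_false]; exact (h2 i hi).ge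
    · by_cases hi : i ∈ u.1
      · simp only [hi, if_true]; exact (h1 i hi).2
      · simp only [hi, if_false]; exact (h2 i hi).le

theorem flat_isFat {s : Idx d → ℝ} {η L : ℝ} (hL : 0 < L) (u : Idx d) :
    IsFatFlat u.1.card 1 (flat s η L u) := by
  refine ⟨lo s η u, hi s η L u, fun i => ?_, rfl, ?_, fun i j hi' hj' => ?_⟩
  · unfold lo hi; split_ifs <;> simp [hL.le]
  · congr 1
    ext i
    simp only [Finset.mem_filter, Finset.mem_univ, true_and]
    unfold lo hi
    split_ifs with h <;> simp [h, hL]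
  · have hi1 : i ∈ u.1 := by
      by_contra h
      simp [lo, hi, h] at hi'
    have hj1 : j ∈ u.1 := by
      by_contra h
      simp [lo, hi, h] at hj'
    simp [lo, hi, hi1, hj1]

/-- the stored flats satisfy linear equations -/
theorem stored_eq {s : Idx d → ℝ} {η L : ℝ} (hL : 0 < L) (u : Idx d) {a : Fin d → ℝ} {b : ℝ}
    {C : Set (Fin d → ℝ)} (hC : IsOpen C) (h1 : (flat s η L u ∩ C).Nonempty)
    (h2 : ¬ (flat s η L u ∩ (C ∩ low a b)).Nonempty)
    (h3 : ¬ (flat s η L u ∩ (C ∩ high a b)).Nonempty) :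
    (∀ i ∈ u.1, a i = 0) ∧ ∑ i, a i * zz s η u i = b := by
  have key : ∀ x ∈ flat s η L u ∩ C, ∑ i, a i * x i = b := by
    rintro x ⟨hx1, hx2⟩
    by_contra hne
    rcases lt_or_gt_of_ne hne with h | h
    · exact h2 ⟨x, hx1, hx2, h⟩
    · exact h3 ⟨x, hx1, hx2, h⟩
  obtain ⟨x, hx1, hx2⟩ := h1
  have hx1' := mem_flat.1 hx1
  have ha : ∀ i ∈ u.1, a i = 0 := by
    intro i hi
    -- move in direction i
    have hcont : Continuous fun τ : ℝ => Function.update x i (x i + τ) := by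
      apply Continuous.update continuous_const
      fun_prop
    have hop : IsOpen ((fun τ : ℝ => Function.update x i (x i + τ)) ⁻¹' C) := hC.preimage hcont
    have h0 : (0 : ℝ) ∈ (fun τ : ℝ => Function.update x i (x i + τ)) ⁻¹' C := by
      simp [hx2]
    obtain ⟨δ, hδ, hball⟩ := Metric.isOpen_iff.1 hop 0 h0
    obtain ⟨τ, hτ0, hτ1, hτ2, hτ3⟩ : ∃ τ : ℝ, τ ≠ 0 ∧ |τ| < δ ∧ 0 ≤ x i + τ ∧ x i + τ ≤ L := by
      obtain ⟨g1, g2⟩ := hx1'.1 i hi
      rcases lt_or_ge (x i) L with h | h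
      · refine ⟨min (δ / 2) (L - x i), ?_, ?_, ?_, ?_⟩
        · exact ne_of_gt (lt_min (by linarith) (by linarith))
        · rw [abs_of_pos (lt_min (by linarith) (by linarith))]
          exact lt_of_le_of_lt (min_le_left _ _) (by linarith)
        · have : 0 < min (δ / 2) (L - x i) := lt_min (by linarith) (by linarith)
          linarith
        · have := min_le_right (δ / 2) (L - x i)
          linarith
      · refine ⟨- min (δ / 2) L, ?_, ?_, ?_, ?_⟩
        · exact neg_ne_zero.2 (ne_of_gt (lt_min (by linarith) (by linarith)))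
        · rw [abs_neg, abs_of_pos (lt_min (by linarith) (by linarith))]
          exact lt_of_le_of_lt (min_le_left _ _) (by linarith)
        · have := min_le_right (δ / 2) L
          linarith
        · have : 0 < min (δ / 2) L := lt_min (by linarith) (by linarith)
          linarith
    have hmem : Function.update x i (x i + τ) ∈ flat s η L u ∩ C := by
      constructor
      · rw [mem_flat]
        refine ⟨fun j hj => ?_, fun j hj => ?_⟩
        · by_cases hji : j = i
          · subst hji; rw [Function.update_self]; exact ⟨hτ2, hτ3⟩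
          · rw [Function.update_of_ne hji]; exact hx1'.1 j hj
        · have hji : j ≠ i := fun h => hj (h ▸ hi)
          rw [Function.update_of_ne hji]; exact hx1'.2 j hj
      · apply hball
        rw [Metric.mem_ball, Real.dist_eq, sub_zero]; exact hτ1
    have e1 := key _ hmem
    have e2 := key x ⟨hx1, hx2⟩
    rw [sum_update] at e1
    have : a i * τ = 0 := by linear_combination e1 - e2
    rcases mul_eq_zero.1 this with h | h
    · exact h
    · exact absurd h hτ0
  refine ⟨ha, ?_⟩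
  rw [← key x ⟨hx1, hx2⟩]
  apply Finset.sum_congr rfl
  intro i _
  by_cases hi : i ∈ u.1
  · rw [ha i hi]; simp
  · rw [hx1'.2 i hi]

/-- A hyperplane contains at most `d` flats. -/
theorem stored_card {s : Idx d → ℝ} {η L : ℝ} (hL : 0 < L) (U : Finset (Idx d))
    (hη : ∀ l : Fin (d + 1) → Idx d, Function.Injective l → (∀ r, l r ∈ U) →
      ∀ (a : Fin d → ℝ) (b : ℝ), (∀ r, ∑ i, a i * zz s η (l r) i = b) → a = 0)
    (a : Fin d → ℝ) (b : ℝ) (C : Set (Fin d → ℝ)) (ha : a ≠ 0) (hC : IsOpen C) :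
    ((U.image (flat s η L)).filter fun F => (F ∩ C).Nonempty ∧ ¬ (F ∩ (C ∩ low a b)).Nonempty ∧
        ¬ (F ∩ (C ∩ high a b)).Nonempty).card ≤ d := by
  by_contra hcon
  rw [not_le] at hcon
  set W := (U.image (flat s η L)).filter fun F => (F ∩ C).Nonempty ∧
    ¬ (F ∩ (C ∩ low a b)).Nonempty ∧ ¬ (F ∩ (C ∩ high a b)).Nonempty with hW
  obtain ⟨f⟩ : Nonempty (Fin (d + 1) ↪ W) := by
    apply Function.Embedding.nonempty_of_card_le
    rw [Fintype.card_fin, Fintype.card_coe]
    exact hcon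
  have h1 : ∀ r, ∃ u ∈ U, flat s η L u = (f r : Set (Fin d → ℝ)) := by
    intro r
    obtain ⟨u, hu, hu'⟩ := Finset.mem_image.1 (Finset.mem_filter.1 (f r).2).1
    exact ⟨u, hu, hu'⟩
  choose l hl1 hl2 using h1
  apply ha
  refine hη l ?_ hl1 a b ?_
  · intro r r' hrr
    apply f.injective
    apply Subtype.ext
    rw [← hl2 r, ← hl2 r', hrr]
  · intro r
    have := (Finset.mem_filter.1 (f r).2).2
    rw [← hl2 r] at this
    exact (stored_eq hL (l r) hC this.1 this.2.1 this.2.2).2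

/-- Flats are disjoint. -/
theorem flat_disjoint {s : Idx d → ℝ} {η L : ℝ} {U : Finset (Idx d)} (hs0 : ∀ u, 0 < s u)
    (hs : Function.Injective s) (hη0 : 0 < η)
    (hsmall : ∀ u ∈ U, ∀ i : Fin d, η * s u ^ ((i : ℕ) + 1) < 1)
    (hcommon : ∀ u ∈ U, ∀ v ∈ U, ∃ i, i ∉ u.1 ∧ i ∉ v.1)
    {u v : Idx d} (hu : u ∈ U) (hv : v ∈ U) (huv : u ≠ v) :
    Disjoint (flat s η L u) (flat s η L v) := by
  have key : ∀ i, i ∉ u.1 → i ∉ v.1 → zz s η u i ≠ zz s η v i := by
    intro i _ _ h
    unfold zz at h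
    have p1 : 0 < η * s u ^ ((i : ℕ) + 1) := mul_pos hη0 (pow_pos (hs0 u) _)
    have p2 : 0 < η * s v ^ ((i : ℕ) + 1) := mul_pos hη0 (pow_pos (hs0 v) _)
    have q1 := hsmall u hu i
    have q2 := hsmall v hv i
    have e : u.2 i = v.2 i := by
      have h1 : (u.2 i : ℝ) < v.2 i + 1 := by linarith
      have h2 : (v.2 i : ℝ) < u.2 i + 1 := by linarith
      have h1' : u.2 i < v.2 i + 1 := by exact_mod_cast h1
      have h2' : v.2 i < u.2 i + 1 := by exact_mod_cast h2
      omega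
    rw [e] at h
    have h3 : s u ^ ((i : ℕ) + 1) = s v ^ ((i : ℕ) + 1) := by
      have : η * s u ^ ((i : ℕ) + 1) = η * s v ^ ((i : ℕ) + 1) := by linarith
      exact mul_left_cancel₀ (ne_of_gt hη0) this
    have h4 := (pow_left_inj₀ (hs0 u).le (hs0 v).le (Nat.succ_ne_zero _)).1 h3
    exact huv (hs h4)
  have h2 : ∃ i, i ∉ u.1 ∧ i ∉ v.1 := hcommon u hu v hv
  obtain ⟨i, hi1, hi2⟩ := h2
  rw [Set.disjoint_left]
  intro x hx hx'
  apply key i hi1 hi2
  rw [← (mem_flat.1 hx).2 i hi1, ← (mem_flat.1 hx').2 i hi2]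

end

end Pool.Agent.J4.H52.BSP
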