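import Pool.Agent.J4.H52.BSP.Walls

/-!
# The main induction
-/

set_option autoImplicit false

namespace Pool.Agent.J4.H52.BSP

open Finset Classical

noncomputable section

variable {d : ℕ}

/-- The bound `L (1 + log₂ L)^e`. -/
def Hb (e L : ℕ) : ℕ := L * (1 + Nat.log 2 L) ^ e

theorem Hb_mono (e : ℕ) {L L' : ℕ} (h : L ≤ L') : Hb e L ≤ Hb e L' := by
  unfold Hb
  exact Nat.mul_le_mul h (Nat.pow_le_pow_left (Nat.add_le_add_left (Nat.log_mono_right h) _) _)

theorem Hb_add_aux (e L1 L2 M : ℕ) (h : L1 ≤ L2) (h1 : M ≤ Hb e L1) :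
    Hb (e + 1) L1 + Hb (e + 1) L2 + M ≤ Hb (e + 1) (L1 + L2) := by
  rcases Nat.eq_zero_or_pos L1 with rfl | h0
  · simp [Hb] at h1 ⊢
    omega
  · have hl : Nat.log 2 L1 + 1 ≤ Nat.log 2 (L1 + L2) := by
      rw [← Nat.log_mul_base one_lt_two (by omega)]
      exact Nat.log_mono_right (by omega)
    have hl2 : Nat.log 2 L2 ≤ Nat.log 2 (L1 + L2) := Nat.log_mono_right (by omega)
    set x := 1 + Nat.log 2 L1 with hx
    set X := 1 + Nat.log 2 (L1 + L2) with hX
    have hxX : x + 1 ≤ X := by omega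
    have e1 : L1 * x ^ (e + 1) + L1 * x ^ e ≤ L1 * X ^ (e + 1) := by
      rw [← Nat.mul_add]
      apply Nat.mul_le_mul_left
      calc x ^ (e + 1) + x ^ e = x ^ e * (x + 1) := by ring
        _ ≤ X ^ e * X := Nat.mul_le_mul (Nat.pow_le_pow_left (by omega) _) hxX
        _ = X ^ (e + 1) := by ring
    have e2 : L2 * (1 + Nat.log 2 L2) ^ (e + 1) ≤ L2 * X ^ (e + 1) := by
      apply Nat.mul_le_mul_left
      exact Nat.pow_le_pow_left (by omega) _
    unfold Hb at h1 ⊢
    rw [← hx] at h1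
    rw [← hx, ← hX, Nat.add_mul]
    omega

theorem Hb_add (e L1 L2 M : ℕ) (h1 : M ≤ Hb e L1) (h2 : M ≤ Hb e L2) :
    Hb (e + 1) L1 + Hb (e + 1) L2 + M ≤ Hb (e + 1) (L1 + L2) := by
  rcases le_total L1 L2 with h | h
  · exact Hb_add_aux e L1 L2 M h h1
  · have := Hb_add_aux e L2 L1 M h h2
    rw [Nat.add_comm L1 L2]
    omega

theorem aff_congr {I : Finset (Fin d)} {Φ : (Fin d → ℝ) → Fin d → ℝ} (h : Aff I Φ)
    {x y : Fin d → ℝ} (hxy : ∀ i ∉ I, x i = y i) : Φ x = Φ y := by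
  funext j
  obtain ⟨α, β, h1, h2⟩ := h.2 (Pi.single j 1)
  have e1 := h2 x
  have e2 := h2 y
  have e3 : ∑ i, α i * x i = ∑ i, α i * y i := by
    apply Finset.sum_congr rfl
    intro i _
    by_cases hi : i ∈ I
    · rw [h1 i hi]; simp
    · rw [hxy i hi]
  have e4 : ∀ v : Fin d → ℝ, ∑ i, (Pi.single j (1 : ℝ) : Fin d → ℝ) i * v i = v j := by
    intro v
    rw [Finset.sum_eq_single j]
    · simp
    · intro i _ hij; simp [Pi.single_eq_of_ne hij]
    · simp
  rw [e4] at e1 e2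
  linarith

/-- The decomposition at a node. -/
theorem split {G : Type} {ctr : G → Fin d → ℝ} {I : Finset (Fin d)}
    {Φ : (Fin d → ℝ) → Fin d → ℝ} (hAff : Aff I Φ) {C : Set (Fin d → ℝ)} {r w : ℝ} (hw : 0 < w)
    {a : Fin d → ℝ} {b : ℝ} {B1 B2 : Tree d} (hgood : ∃ x, ∑ i, a i * Φ x i ≠ b)
    (hB1 : Good Φ B1) (hB2 : Good Φ B2) (Q : Finset G)
    (hQ : ∀ g ∈ Q, St I Φ C (r + w) (ctr g)) :
    ∃ Q1 Q2 Q3 : Finset G, Q.card ≤ Q1.card + Q2.card + Q3.card ∧
      (∀ g ∈ Q1, St I Φ (C ∩ low a b) r (ctr g)) ∧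
      (∀ g ∈ Q2, St I Φ (C ∩ high a b) r (ctr g)) ∧
      (Q3 = ∅ ∨ ∃ i ∉ I, ∃ Φ1 Φ2, Aff (insert i I) Φ1 ∧ Good Φ1 B1 ∧ Aff (insert i I) Φ2 ∧
        Good Φ2 B2 ∧ ∀ g ∈ Q3, St (insert i I) Φ1 (C ∩ low a b) (w / 2) (ctr g) ∧
          St (insert i I) Φ2 (C ∩ high a b) (w / 2) (ctr g)) := by
  have hQr : ∀ g ∈ Q, St I Φ C r (ctr g) := fun g hg => (hQ g hg).mono (by linarith)
  obtain ⟨α, β, hα, hαβ⟩ := hAff.2 a
  by_cases h0 : α = 0
  · have hc : ∀ x, ∑ i, a i * Φ x i = β := by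
      intro x; rw [hαβ, h0]; simp
    obtain ⟨x, hx⟩ := hgood
    rw [hc] at hx
    rcases lt_or_gt_of_ne hx with h | h
    · refine ⟨Q, ∅, ∅, by simp, fun g hg x hx => ?_, by simp, Or.inl rfl⟩
      obtain ⟨h1, h2⟩ := hQr g hg x hx
      refine ⟨⟨h1, ?_⟩, h2⟩
      show ∑ i, a i * Φ x i < b
      rw [hc]; exact h
    · refine ⟨∅, Q, ∅, by simp, by simp, fun g hg x hx => ?_, Or.inl rfl⟩
      obtain ⟨h1, h2⟩ := hQr g hg x hx
      refine ⟨⟨h1, ?_⟩, h2⟩
      show b < ∑ i, a i * Φ x i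
      rw [hc]; exact h
  · obtain ⟨j, hj⟩ : ∃ j, α j ≠ 0 := by
      by_contra hcon
      push Not at hcon
      exact h0 (funext hcon)
    obtain ⟨i, -, hi⟩ := Finset.exists_max_image (Finset.univ : Finset (Fin d)) (fun i => |α i|)
      ⟨j, Finset.mem_univ j⟩
    have hi' : ∀ j, |α j| ≤ |α i| := fun j => hi j (Finset.mem_univ j)
    have hi0 : α i ≠ 0 := by
      intro h
      have := hi' j
      rw [h, abs_zero] at this
      exact hj (abs_eq_zero.1 (le_antisymm this (abs_nonneg _)))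
    have hiI : i ∉ I := fun h => hi0 (hα i h)
    have hai : 0 < |α i| := abs_pos.2 hi0
    refine ⟨Q.filter fun g => ∑ j, α j * ctr g j + β - b ≤ -(|α i| * r),
      Q.filter fun g => |α i| * r ≤ ∑ j, α j * ctr g j + β - b,
      Q.filter fun g => |∑ j, α j * ctr g j + β - b| < |α i| * r, ?_, ?_, ?_, Or.inr ?_⟩
    · have hcov : Q ⊆ (Q.filter fun g => ∑ j, α j * ctr g j + β - b ≤ -(|α i| * r)) ∪
          (Q.filter fun g => |α i| * r ≤ ∑ j, α j * ctr g j + β - b) ∪
          (Q.filter fun g => |∑ j, α j * ctr g j + β - b| < |α i| * r) := by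
        intro g hg
        simp only [Finset.mem_union, Finset.mem_filter, hg, true_and]
        rcases le_or_gt (∑ j, α j * ctr g j + β - b) (-(|α i| * r)) with h | h
        · exact Or.inl (Or.inl h)
        · rcases le_or_gt (|α i| * r) (∑ j, α j * ctr g j + β - b) with h' | h'
          · exact Or.inl (Or.inr h')
          · exact Or.inr (abs_lt.2 ⟨h, h'⟩)
      exact (Finset.card_le_card hcov).trans ((Finset.card_union_le _ _).trans
        (Nat.add_le_add_right (Finset.card_union_le _ _) _))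
    · intro g hg
      rw [Finset.mem_filter] at hg
      exact (hQr g hg.1).miss hα hαβ hi' hai hg.2
    · intro g hg
      rw [Finset.mem_filter] at hg
      rw [high_eq_low]
      refine (hQr g hg.1).miss (α := fun j => - α j) (β := - β) (fun j hj => by rw [hα j hj, neg_zero])
        (fun x => ?_) (fun j => by rw [abs_neg]; exact hi' j) hai ?_
      · have e1 : ∑ i, (-a) i * Φ x i = - ∑ i, a i * Φ x i := by
          rw [← Finset.sum_neg_distrib]
          exact Finset.sum_congr rfl fun j _ => by simp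
        have e2 : ∑ i, -α i * x i = - ∑ i, α i * x i := by
          rw [← Finset.sum_neg_distrib]
          exact Finset.sum_congr rfl fun j _ => by simp
        rw [e1, e2, hαβ]; ring
      · have e2 : ∑ i, -α i * ctr g i = - ∑ i, α i * ctr g i := by
          rw [← Finset.sum_neg_distrib]
          exact Finset.sum_congr rfl fun j _ => by simp
        rw [e2]
        linarith [hg.2]
    · obtain ⟨Φ1, f1, f2, f3⟩ := level_up hAff hw hα hαβ hi' hi0
        (Q := Q.filter fun g => |∑ j, α j * ctr g j + β - b| < |α i| * r)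
        (fun g hg => hQ g (Finset.mem_filter.1 hg).1) (fun g hg => (Finset.mem_filter.1 hg).2) hB1
      have e1 : ∀ x, ∑ i, (-a) i * Φ x i = ∑ i, -α i * x i + -β := by
        intro x
        have e1 : ∑ i, (-a) i * Φ x i = - ∑ i, a i * Φ x i := by
          rw [← Finset.sum_neg_distrib]
          exact Finset.sum_congr rfl fun j _ => by simp
        have e2 : ∑ i, -α i * x i = - ∑ i, α i * x i := by
          rw [← Finset.sum_neg_distrib]
          exact Finset.sum_congr rfl fun j _ => by simp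
        rw [e1, e2, hαβ]; ring
      obtain ⟨Φ2, g1, g2, g3⟩ := level_up (a := -a) (b := -b) (α := fun j => - α j) (β := -β)
        (i := i) hAff hw (fun j hj => by rw [hα j hj, neg_zero]) e1
        (fun j => by rw [abs_neg, abs_neg]; exact hi' j) (neg_ne_zero.2 hi0)
        (Q := Q.filter fun g => |∑ j, α j * ctr g j + β - b| < |α i| * r)
        (fun g hg => hQ g (Finset.mem_filter.1 hg).1) (fun g hg => by
          have e2 : ∑ i, -α i * ctr g i = - ∑ i, α i * ctr g i := by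
            rw [← Finset.sum_neg_distrib]
            exact Finset.sum_congr rfl fun j _ => by simp
          rw [e2, abs_neg]
          have := (Finset.mem_filter.1 hg).2
          rw [← abs_neg] at this
          refine lt_of_le_of_lt (le_of_eq ?_) this
          congr 1; ring) hB2
      refine ⟨i, hiI, Φ1, Φ2, f1, f2, g1, g2, fun g hg => ⟨f3 g hg, ?_⟩⟩
      rw [high_eq_low]
      exact g3 g hg

/-- The data of a lower bound configuration. -/
structure Conf (d : ℕ) where
  /-- the gadgets -/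
  G : Type
  /-- the centres -/
  ctr : G → Fin d → ℝ
  /-- the flat of type `K` at a gadget -/
  Fl : Finset (Fin d) → G → Set (Fin d → ℝ)
  /-- the fixed coordinates -/
  z : Finset (Fin d) → G → Fin d → ℝ
  /-- the set of flats -/
  S : Finset (Set (Fin d → ℝ))
  /-- the dimension of the flats -/
  k : ℕ
  /-- the common directions -/
  T : Finset (Fin d)
  /-- the accuracy -/
  w0 : ℝ
  hk : k + 1 ≤ d
  hw0 : 0 < w0
  hS : ∀ K g, T ⊆ K → K.card = k → Fl K g ∈ S
  hz : ∀ K g, T ⊆ K → K.card = k → ∑ i ∈ Kᶜ, |z K g i - ctr g i| < w0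
  hmem : ∀ K g, T ⊆ K → K.card = k → ∀ x : Fin d → ℝ, (∀ i ∉ K, x i = z K g i) →
    (∀ i ∈ K, |x i - ctr g i| < 1 / 4) → x ∈ Fl K g
  hinj : ∀ K g K' g', T ⊆ K → K.card = k → T ⊆ K' → K'.card = k → Fl K g = Fl K' g' →
    K = K' ∧ ∀ i ∉ K, z K g i = z K' g' i
  hctr : ∀ g g', (∀ i, |ctr g i - ctr g' i| < 1 / 2) → g = g'

variable (c : Conf d)

theorem Conf.point {I K : Finset (Fin d)} {Φ : (Fin d → ℝ) → Fin d → ℝ} (h : Aff I Φ) (hIK : I ⊆ K)
    (hT : c.T ⊆ K) (hK : K.card = c.k) {C : Set (Fin d → ℝ)} {g : c.G}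
    (hst : St I Φ C c.w0 (c.ctr g)) :
    Φ (fun i => if i ∈ K then c.ctr g i else c.z K g i) ∈ c.Fl K g ∩ C ∧
      ∀ i, |Φ (fun i => if i ∈ K then c.ctr g i else c.z K g i) i - c.ctr g i| < 1 / 4 := by
  obtain ⟨h1, h2⟩ := hst (fun i => if i ∈ K then c.ctr g i else c.z K g i) (by
    refine lt_of_le_of_lt (le_of_eq ?_) (c.hz K g hT hK)
    rw [← Finset.sum_subset (Finset.compl_subset_compl.2 hIK)]
    · apply Finset.sum_congr rfl
      intro i hi
      rw [Finset.mem_compl] at hi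
      simp [hi]
    · intro i _ hi
      rw [Finset.mem_compl, not_not] at hi
      simp [hi])
  refine ⟨⟨c.hmem K g hT hK _ (fun i hi => ?_) fun i _ => h2 i, h1⟩, h2⟩
  rw [h.1 _ i (fun hi' => hi (hIK hi'))]
  simp [hi]

theorem Conf.level0 {I : Finset (Fin d)} {Φ1 Φ2 : (Fin d → ℝ) → Fin d → ℝ} (h1 : Aff I Φ1)
    (h2 : Aff I Φ2) (hT : c.T ⊆ I) (hI : I.card = c.k) {C1 C2 : Set (Fin d → ℝ)} {Q : Finset c.G}
    (hst1 : ∀ g ∈ Q, St I Φ1 C1 c.w0 (c.ctr g)) (hst2 : ∀ g ∈ Q, St I Φ2 C2 c.w0 (c.ctr g)) :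
    Q.card ≤ (c.S.filter fun F => (F ∩ C1).Nonempty ∧ (F ∩ C2).Nonempty).card := by
  apply Finset.card_le_card_of_injOn (fun g => c.Fl I g)
  · intro g hg
    have hg' : g ∈ Q := hg
    rw [Finset.mem_coe, Finset.mem_filter]
    exact ⟨c.hS I g hT hI, ⟨_, (c.point h1 (Finset.Subset.refl _) hT hI (hst1 g hg')).1⟩,
      ⟨_, (c.point h2 (Finset.Subset.refl _) hT hI (hst2 g hg')).1⟩⟩
  · intro g hg g' hg' hgg
    have hgg' : c.Fl I g = c.Fl I g' := hgg
    obtain ⟨_, hzz⟩ := c.hinj I g I g' hT hI hT hI hgg'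
    apply c.hctr
    intro i
    have e1 := (c.point h1 (Finset.Subset.refl _) hT hI (hst1 g hg)).2 i
    have e2 := (c.point h1 (Finset.Subset.refl _) hT hI (hst1 g' hg')).2 i
    rw [aff_congr h1 (y := fun i => if i ∈ I then c.ctr g' i else c.z I g' i) (by
      intro j hj
      simp only [hj, if_false]
      exact hzz j hj)] at e1
    rw [abs_lt] at e1 e2 ⊢
    constructor <;> linarith [e1.1, e1.2, e2.1, e2.2]

theorem Conf.leaf {I : Finset (Fin d)} {Φ : (Fin d → ℝ) → Fin d → ℝ} (h : Aff I Φ)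
    (hT : c.T ⊆ I) (hI : I.card < c.k) {C : Set (Fin d → ℝ)}
    (hC : Tree.Valid (c.S : Set (Set (Fin d → ℝ))) .leaf C) (g : c.G) :
    ¬ St I Φ C c.w0 (c.ctr g) := by
  intro hst
  have hk := c.hk
  obtain ⟨K, hIK, hK⟩ := Finset.exists_superset_card_eq (s := I) (n := c.k) hI.le
    (by rw [Fintype.card_fin]; omega)
  obtain ⟨x, hx⟩ : (K \ I).Nonempty := by
    rw [Finset.sdiff_nonempty]
    intro hh
    have := Finset.card_le_card hh
    omega
  obtain ⟨y, hy⟩ : (Kᶜ).Nonempty := by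
    rw [← Finset.card_pos, Finset.card_compl, Fintype.card_fin]
    omega
  rw [Finset.mem_sdiff] at hx
  rw [Finset.mem_compl] at hy
  set K' := insert y (K.erase x) with hK'
  have hIK' : I ⊆ K' := by
    intro i hi
    rw [hK', Finset.mem_insert, Finset.mem_erase]
    right
    refine ⟨?_, hIK hi⟩
    rintro rfl
    exact hx.2 hi
  have hcard : K'.card = c.k := by
    rw [hK', Finset.card_insert_of_notMem, Finset.card_erase_of_mem hx.1, hK]
    · have : 0 < K.card := Finset.card_pos.2 ⟨x, hx.1⟩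
      omega
    · rw [Finset.mem_erase]; tauto
  have e1 := c.point h hIK (hT.trans hIK) hK hst
  have e2 := c.point h hIK' (hT.trans hIK') hcard hst
  have e3 := hC _ (c.hS K g (hT.trans hIK) hK) _ (c.hS K' g (hT.trans hIK') hcard) ⟨_, e1.1⟩
    ⟨_, e2.1⟩
  have e4 := (c.hinj K g K' g (hT.trans hIK) hK (hT.trans hIK') hcard e3).1
  apply hy
  rw [e4, hK']
  exact Finset.mem_insert_self _ _

/-- The scales. -/
def scale (w0 : ℝ) (Λ f : ℕ) : ℝ := w0 * (2 * (1 + (Λ : ℝ))) ^ f

theorem scale_pos {w0 : ℝ} (h : 0 < w0) (Λ f : ℕ) : 0 < scale w0 Λ f := by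
  unfold scale; positivity

theorem scale_succ {w0 : ℝ} (h : 0 < w0) (Λ f : ℕ) {s : ℕ} (hs : s ≤ Λ) :
    scale w0 Λ f * (1 + (s : ℝ)) ≤ scale w0 Λ (f + 1) / 2 := by
  have e : scale w0 Λ (f + 1) / 2 = scale w0 Λ f * (1 + (Λ : ℝ)) := by
    unfold scale; ring
  rw [e]
  apply mul_le_mul_of_nonneg_left _ (scale_pos h Λ f).le
  have : (s : ℝ) ≤ Λ := by exact_mod_cast hs
  linarith

theorem le_scale {w0 : ℝ} (h : 0 < w0) (Λ f : ℕ) : w0 ≤ scale w0 Λ f := by
  unfold scale
  have : (1 : ℝ) ≤ (2 * (1 + (Λ : ℝ))) ^ f := by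
    apply one_le_pow₀
    have : (0 : ℝ) ≤ Λ := Nat.cast_nonneg _
    linarith
  nlinarith

theorem Conf.base (Λ : ℕ) (B : Tree d) : ∀ (C : Set (Fin d → ℝ)) (Φ : (Fin d → ℝ) → Fin d → ℝ)
    (I : Finset (Fin d)) (Q : Finset c.G), c.T ⊆ I → I.card + 1 = c.k → Aff I Φ → Good Φ B →
      B.Valid (c.S : Set (Set (Fin d → ℝ))) C → B.size ≤ Λ →
      (∀ g ∈ Q, St I Φ C (scale c.w0 Λ 1 * (1 + (B.size : ℝ))) (c.ctr g)) →
      Q.card ≤ ∑ F ∈ c.S, cross F B C := by
  induction B with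
  | leaf =>
    intro C Φ I Q hT hI hAff hGood hV hs hQ
    have : Q = ∅ := by
      rw [Finset.eq_empty_iff_forall_notMem]
      intro g hg
      apply c.leaf hAff hT (by omega) hV g
      apply (hQ g hg).mono
      have h1 := le_scale c.hw0 Λ 1
      have h2 := scale_pos c.hw0 Λ 1
      have : (0 : ℝ) ≤ ((Tree.leaf : Tree d).size : ℝ) := Nat.cast_nonneg _
      nlinarith
    rw [this]; simp
  | node a b l r ihl ihr =>
    intro C Φ I Q hT hI hAff hGood hV hs hQ
    obtain ⟨_, hVl, hVr⟩ := hV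
    obtain ⟨hg1, hg2, hg3⟩ := hGood
    have hsz : (Tree.node a b l r).size = l.size + r.size + 1 := rfl
    have hw := scale_pos c.hw0 Λ 1
    obtain ⟨Q1, Q2, Q3, hcard, h1, h2, h3⟩ := split (r := scale c.w0 Λ 1 *
      ((Tree.node a b l r).size : ℝ)) hAff hw hg1 hg2 hg3 Q (fun g hg => by
        refine (hQ g hg).mono (le_of_eq ?_); ring)
    have e1 := ihl (C ∩ low a b) Φ I Q1 hT hI hAff hg2 hVl (by omega) (fun g hg =>
      (h1 g hg).mono (by
        apply mul_le_mul_of_nonneg_left _ hw.le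
        rw [hsz]; push_cast
        have : (0 : ℝ) ≤ (r.size : ℝ) := Nat.cast_nonneg _
        linarith))
    have e2 := ihr (C ∩ high a b) Φ I Q2 hT hI hAff hg3 hVr (by omega) (fun g hg =>
      (h2 g hg).mono (by
        apply mul_le_mul_of_nonneg_left _ hw.le
        rw [hsz]; push_cast
        have : (0 : ℝ) ≤ (l.size : ℝ) := Nat.cast_nonneg _
        linarith))
    have e3 : Q3.card ≤ (c.S.filter fun F => (F ∩ (C ∩ low a b)).Nonempty ∧
        (F ∩ (C ∩ high a b)).Nonempty).card := by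
      rcases h3 with h3 | ⟨i, hi, Φ1, Φ2, f1, f2, f3, f4, f5⟩
      · rw [h3]; simp
      · have hr : c.w0 ≤ scale c.w0 Λ 1 / 2 := by
          have := scale_succ c.hw0 Λ 0 (s := 0) (Nat.zero_le _)
          have h0 : scale c.w0 Λ 0 = c.w0 := by simp [scale]
          rw [h0] at this
          simpa using this
        exact c.level0 f1 f3 (hT.trans (Finset.subset_insert _ _))
          (by rw [Finset.card_insert_of_notMem hi]; exact hI)
          (fun g hg => (f5 g hg).1.mono hr) (fun g hg => (f5 g hg).2.mono hr)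
    simp only [cross, Finset.sum_add_distrib]
    rw [← Finset.card_filter]
    omega

theorem Conf.main (Λ e : ℕ) : ∀ (B : Tree d) (C : Set (Fin d → ℝ))
    (Φ : (Fin d → ℝ) → Fin d → ℝ)
    (I : Finset (Fin d)) (Q : Finset c.G), c.T ⊆ I → I.card + (e + 1) = c.k → Aff I Φ → Good Φ B →
      B.Valid (c.S : Set (Set (Fin d → ℝ))) C → B.size ≤ Λ →
      (∀ g ∈ Q, St I Φ C (scale c.w0 Λ (e + 1) * (1 + (B.size : ℝ))) (c.ctr g)) →
      Q.card ≤ Hb e (frag c.S B C) := by
  induction e with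
  | zero =>
    intro B C Φ I Q hT hI hAff hGood hV hs hQ
    refine (c.base Λ B C Φ I Q hT hI hAff hGood hV hs hQ).trans ?_
    unfold Hb frag
    rw [pow_zero, mul_one]
    exact Finset.sum_le_sum fun F _ => cross_le F B C
  | succ e ihe =>
    intro B
    induction B with
    | leaf =>
      intro C Φ I Q hT hI hAff hGood hV hs hQ
      have : Q = ∅ := by
        rw [Finset.eq_empty_iff_forall_notMem]
        intro g hg
        apply c.leaf hAff hT (by omega) hV g
        apply (hQ g hg).mono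
        have h1 := le_scale c.hw0 Λ (e + 1 + 1)
        have h2 := scale_pos c.hw0 Λ (e + 1 + 1)
        have : (0 : ℝ) ≤ ((Tree.leaf : Tree d).size : ℝ) := Nat.cast_nonneg _
        nlinarith
      rw [this]; simp
    | node a b l r ihl ihr =>
      intro C Φ I Q hT hI hAff hGood hV hs hQ
      obtain ⟨_, hVl, hVr⟩ := hV
      obtain ⟨hg1, hg2, hg3⟩ := hGood
      have hsz : (Tree.node a b l r).size = l.size + r.size + 1 := rfl
      have hw := scale_pos c.hw0 Λ (e + 1 + 1)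
      obtain ⟨Q1, Q2, Q3, hcard, h1, h2, h3⟩ := split (r := scale c.w0 Λ (e + 1 + 1) *
        ((Tree.node a b l r).size : ℝ)) hAff hw hg1 hg2 hg3 Q (fun g hg => by
          refine (hQ g hg).mono (le_of_eq ?_); ring)
      have e1 := ihl (C ∩ low a b) Φ I Q1 hT hI hAff hg2 hVl (by omega) (fun g hg =>
        (h1 g hg).mono (by
          apply mul_le_mul_of_nonneg_left _ hw.le
          rw [hsz]; push_cast
          have : (0 : ℝ) ≤ (r.size : ℝ) := Nat.cast_nonneg _
          linarith))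
      have e2 := ihr (C ∩ high a b) Φ I Q2 hT hI hAff hg3 hVr (by omega) (fun g hg =>
        (h2 g hg).mono (by
          apply mul_le_mul_of_nonneg_left _ hw.le
          rw [hsz]; push_cast
          have : (0 : ℝ) ≤ (l.size : ℝ) := Nat.cast_nonneg _
          linarith))
      have e3 : Q3.card ≤ Hb e (frag c.S l (C ∩ low a b)) ∧
          Q3.card ≤ Hb e (frag c.S r (C ∩ high a b)) := by
        rcases h3 with h3 | ⟨i, hi, Φ1, Φ2, f1, f2, f3, f4, f5⟩
        · rw [h3]; simp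
        · constructor
          · exact ihe l (C ∩ low a b) Φ1 (insert i I) Q3 (hT.trans (Finset.subset_insert _ _))
              (by rw [Finset.card_insert_of_notMem hi]; omega) f1 f2 hVl (by omega)
              (fun g hg => (f5 g hg).1.mono (scale_succ c.hw0 Λ (e + 1) (by omega)))
          · exact ihe r (C ∩ high a b) Φ2 (insert i I) Q3 (hT.trans (Finset.subset_insert _ _))
              (by rw [Finset.card_insert_of_notMem hi]; omega) f3 f4 hVr (by omega)
              (fun g hg => (f5 g hg).2.mono (scale_succ c.hw0 Λ (e + 1) (by omega)))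
      have e4 := Hb_add e _ _ _ e3.1 e3.2
      have e5 : Hb (e + 1) (frag c.S l (C ∩ low a b) + frag c.S r (C ∩ high a b)) ≤
          Hb (e + 1) (frag c.S (.node a b l r) C) := by
        apply Hb_mono
        rw [frag_node]
        omega
      omega

end

end Pool.Agent.J4.H52.BSP
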