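import Pool.Agent.J4.H52.BSP.Count

/-!
# Iterated walls

An affine subspace of `ℝ^d` is parametrized by the coordinates outside `I`, through a map `Φ`.
-/

set_option autoImplicit false

namespace Pool.Agent.J4.H52.BSP

open Finset Classical

noncomputable section

variable {d : ℕ}

/-- `Φ` parametrizes an affine subspace by the coordinates outside `I`. -/
def Aff (I : Finset (Fin d)) (Φ : (Fin d → ℝ) → Fin d → ℝ) : Prop :=
  (∀ x, ∀ i ∉ I, Φ x i = x i) ∧
    ∀ a : Fin d → ℝ, ∃ (α : Fin d → ℝ) (β : ℝ), (∀ i ∈ I, α i = 0) ∧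
      ∀ x, ∑ i, a i * Φ x i = ∑ i, α i * x i + β

/-- No splitting hyperplane of the tree contains the image of `Φ`. -/
def Good (Φ : (Fin d → ℝ) → Fin d → ℝ) : Tree d → Prop
  | .leaf => True
  | .node a b l r => (∃ x, ∑ i, a i * Φ x i ≠ b) ∧ Good Φ l ∧ Good Φ r

/-- Fix the coordinate `i` to be an affine function of the others. -/
def push (Φ : (Fin d → ℝ) → Fin d → ℝ) (i : Fin d) (γ : Fin d → ℝ) (c : ℝ) :
    (Fin d → ℝ) → Fin d → ℝ :=
  fun x => Φ (Function.update x i (∑ j, γ j * x j + c))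

theorem sum_update (α x : Fin d → ℝ) (i : Fin d) (v : ℝ) :
    ∑ j, α j * Function.update x i v j = ∑ j, α j * x j + α i * (v - x i) := by
  have : ∀ j, α j * Function.update x i v j = α j * x j + (if j = i then α i * (v - x i) else 0) := by
    intro j
    by_cases h : j = i
    · subst h; simp; ring
    · simp [Function.update_of_ne h, h]
  simp only [this, Finset.sum_add_distrib]
  simp

theorem aff_push {I : Finset (Fin d)} {Φ : (Fin d → ℝ) → Fin d → ℝ} (h : Aff I Φ) {i : Fin d}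
    (hi : i ∉ I) {γ : Fin d → ℝ} (hγ : ∀ j ∈ insert i I, γ j = 0) (c : ℝ) :
    Aff (insert i I) (push Φ i γ c) := by
  refine ⟨fun x j hj => ?_, fun a => ?_⟩
  · rw [Finset.mem_insert, not_or] at hj
    unfold push
    rw [h.1 _ j hj.2, Function.update_of_ne hj.1]
  · obtain ⟨α, β, h1, h2⟩ := h.2 a
    refine ⟨fun j => (if j = i then 0 else α j) + α i * γ j, β + α i * c, fun j hj => ?_,
      fun x => ?_⟩
    · show (if j = i then 0 else α j) + α i * γ j = 0
      rw [hγ j hj]
      rcases Finset.mem_insert.1 hj with rfl | hj'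
      · simp
      · rw [h1 j hj']; simp
    · unfold push
      rw [h2, sum_update]
      have : ∀ j, ((if j = i then 0 else α j) + α i * γ j) * x j =
          α j * x j - (if j = i then α i * x i else 0) + α i * (γ j * x j) := by
        intro j
        by_cases h : j = i
        · subst h; simp; ring
        · simp [h]; ring
      simp only [this, Finset.sum_add_distrib, Finset.sum_sub_distrib, ← Finset.mul_sum]
      simp
      ring

theorem good_push {I : Finset (Fin d)} {Φ : (Fin d → ℝ) → Fin d → ℝ} (h : Aff I Φ) (i : Fin d)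
    (γ : Fin d → ℝ) (c : ℝ) (B : Tree d) :
    Good Φ B → {τ : ℝ | ¬ Good (push Φ i γ (c + τ)) B}.Finite := by
  induction B with
  | leaf => intro _; simp [Good]
  | node a b l r ihl ihr =>
    rintro ⟨⟨x, hx⟩, hl, hr⟩
    have h1 : {τ : ℝ | ¬ ∃ x, ∑ i_1, a i_1 * push Φ i γ (c + τ) x i_1 ≠ b}.Finite := by
      obtain ⟨α, β, -, h2⟩ := h.2 a
      by_cases hα : α i = 0
      · have : {τ : ℝ | ¬ ∃ x, ∑ i_1, a i_1 * push Φ i γ (c + τ) x i_1 ≠ b} = ∅ := by
          rw [Set.eq_empty_iff_forall_notMem]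
          intro τ hτ
          apply hτ
          refine ⟨x, ?_⟩
          unfold push
          rw [h2, sum_update, hα, zero_mul, add_zero, ← h2]
          exact hx
        rw [this]; exact Set.finite_empty
      · apply Set.Subsingleton.finite
        intro τ hτ τ' hτ'
        simp only [Set.mem_ofPred_eq, not_exists, not_not] at hτ hτ'
        have e1 := hτ 0
        have e2 := hτ' 0
        unfold push at e1 e2
        rw [h2, sum_update] at e1 e2
        have : α i * (τ - τ') = 0 := by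
          simp at e1 e2
          linear_combination e1 - e2
        rcases mul_eq_zero.1 this with h | h
        · exact absurd h hα
        · linarith
    have : {τ : ℝ | ¬ Good (push Φ i γ (c + τ)) (.node a b l r)} ⊆
        {τ : ℝ | ¬ ∃ x, ∑ i_1, a i_1 * push Φ i γ (c + τ) x i_1 ≠ b} ∪
          ({τ : ℝ | ¬ Good (push Φ i γ (c + τ)) l} ∪ {τ : ℝ | ¬ Good (push Φ i γ (c + τ)) r}) := by
      intro τ hτ
      simp only [Set.mem_ofPred_eq, Good, Set.mem_union] at hτ ⊢
      tauto
    exact (h1.union ((ihl hl).union (ihr hr))).subset this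

/-- The state of a gadget with centre `p`: the part of the subspace near `p` lies in the cell. -/
def St (I : Finset (Fin d)) (Φ : (Fin d → ℝ) → Fin d → ℝ) (C : Set (Fin d → ℝ)) (r : ℝ)
    (p : Fin d → ℝ) : Prop :=
  ∀ x : Fin d → ℝ, ∑ i ∈ Iᶜ, |x i - p i| < r → Φ x ∈ C ∧ ∀ i, |Φ x i - p i| < 1 / 4

theorem St.mono {I : Finset (Fin d)} {Φ : (Fin d → ℝ) → Fin d → ℝ} {C : Set (Fin d → ℝ)}
    {r r' : ℝ} {p : Fin d → ℝ} (h : St I Φ C r p) (hr : r' ≤ r) : St I Φ C r' p :=
  fun x hx => h x (lt_of_lt_of_le hx hr)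

/-- the linear form does not vary much -/
theorem form_le {I : Finset (Fin d)} {α : Fin d → ℝ} (hα : ∀ i ∈ I, α i = 0) {A : ℝ}
    (hA : ∀ i, |α i| ≤ A) (x p : Fin d → ℝ) :
    |∑ i, α i * x i - ∑ i, α i * p i| ≤ A * ∑ i ∈ Iᶜ, |x i - p i| := by
  rw [← Finset.sum_sub_distrib]
  have : ∀ i, α i * x i - α i * p i = α i * (x i - p i) := fun i => by ring
  simp only [this]
  rw [← Finset.sum_add_sum_compl I, Finset.sum_eq_zero (s := I) (fun i hi => by rw [hα i hi, zero_mul]),
    zero_add, Finset.mul_sum]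
  refine (Finset.abs_sum_le_sum_abs _ _).trans (Finset.sum_le_sum fun i _ => ?_)
  rw [abs_mul]
  exact mul_le_mul_of_nonneg_right (hA i) (abs_nonneg _)

/-- If the hyperplane misses the smaller region, the gadget survives in a child. -/
theorem St.miss {I : Finset (Fin d)} {Φ : (Fin d → ℝ) → Fin d → ℝ} {C : Set (Fin d → ℝ)}
    {r : ℝ} {p : Fin d → ℝ} (h : St I Φ C r p) {a : Fin d → ℝ} {b : ℝ} {α : Fin d → ℝ} {β : ℝ}
    (hα : ∀ i ∈ I, α i = 0) (hαβ : ∀ x, ∑ i, a i * Φ x i = ∑ i, α i * x i + β) {A : ℝ}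
    (hA : ∀ i, |α i| ≤ A) (hA0 : 0 < A) (hp : ∑ i, α i * p i + β - b ≤ - (A * r)) :
    St I Φ (C ∩ low a b) r p := by
  intro x hx
  obtain ⟨h1, h2⟩ := h x hx
  refine ⟨⟨h1, ?_⟩, h2⟩
  show ∑ i, a i * Φ x i < b
  rw [hαβ]
  have h3 := form_le hα hA x p
  have h4 := (abs_le.1 h3).2
  have h5 : A * ∑ i ∈ Iᶜ, |x i - p i| < A * r := mul_lt_mul_of_pos_left hx hA0
  linarith

theorem high_eq_low (a : Fin d → ℝ) (b : ℝ) : high a b = low (-a) (-b) := by
  ext x
  simp [high, low]

theorem exists_slack {G : Type} (Q : Finset G) (f : G → ℝ) (hf : ∀ g ∈ Q, 0 < f g) :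
    ∃ δ > 0, ∀ g ∈ Q, δ ≤ f g := by
  induction Q using Finset.induction_on with
  | empty => exact ⟨1, one_pos, fun g hg => absurd hg (Finset.notMem_empty g)⟩
  | insert g Q _ ih =>
    obtain ⟨δ, h1, h2⟩ := ih fun g' hg' => hf g' (Finset.mem_insert_of_mem hg')
    refine ⟨min δ (f g), lt_min h1 (hf g (Finset.mem_insert_self _ _)), fun g' hg' => ?_⟩
    rcases Finset.mem_insert.1 hg' with rfl | h
    · exact min_le_right _ _
    · exact (min_le_left _ _).trans (h2 g' h)

/-- Passing to the next wall. -/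
theorem level_up {G : Type} {ctr : G → Fin d → ℝ} {I : Finset (Fin d)}
    {Φ : (Fin d → ℝ) → Fin d → ℝ} (hAff : Aff I Φ) {C : Set (Fin d → ℝ)} {r w : ℝ} (hw : 0 < w)
    {a : Fin d → ℝ} {b : ℝ} {α : Fin d → ℝ} {β : ℝ} {i : Fin d}
    (hα : ∀ j ∈ I, α j = 0) (hαβ : ∀ x, ∑ j, a j * Φ x j = ∑ j, α j * x j + β)
    (hi : ∀ j, |α j| ≤ |α i|) (hi0 : α i ≠ 0) {Q : Finset G}
    (hQ : ∀ g ∈ Q, St I Φ C (r + w) (ctr g))
    (hQ' : ∀ g ∈ Q, |∑ j, α j * ctr g j + β - b| < |α i| * r) {B : Tree d} (hB : Good Φ B) :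
    ∃ Φ', Aff (insert i I) Φ' ∧ Good Φ' B ∧
      ∀ g ∈ Q, St (insert i I) Φ' (C ∩ low a b) (w / 2) (ctr g) := by
  have hiI : i ∉ I := fun h => hi0 (hα i h)
  have hai : 0 < |α i| := abs_pos.2 hi0
  obtain ⟨δ, hδ, hδ'⟩ := exists_slack Q
    (fun g => r - |∑ j, α j * ctr g j + β - b| / |α i|) (fun g hg => by
      have := hQ' g hg
      rw [sub_pos, div_lt_iff₀ hai]
      linarith)
  -- the affine function
  set γ : Fin d → ℝ := fun j => if j = i then 0 else - α j / α i with hγ
  set c : ℝ := (b - β) / α i with hc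
  have hγ0 : ∀ j ∈ insert i I, γ j = 0 := by
    intro j hj
    rcases Finset.mem_insert.1 hj with rfl | h
    · simp [hγ]
    · simp [hγ, hα j h]
  have hψ : ∀ x : Fin d → ℝ, α i * (∑ j, γ j * x j + c) = b - β - (∑ j, α j * x j - α i * x i) := by
    intro x
    have : ∑ j, γ j * x j = (∑ j, - α j * x j + α i * x i) / α i := by
      rw [eq_div_iff hi0, Finset.sum_mul]
      have : ∀ j, γ j * x j * α i = - α j * x j + (if j = i then α i * x i else 0) := by
        intro j
        by_cases h : j = i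
        · subst h; simp [hγ]
        · simp only [hγ, h, if_false]
          field_simp
          ring
      simp only [this, Finset.sum_add_distrib]
      simp
    rw [this, hc]
    have e : ∑ j, -α j * x j = - ∑ j, α j * x j := by
      rw [← Finset.sum_neg_distrib]
      exact Finset.sum_congr rfl fun j _ => by ring
    rw [e]
    field_simp
    ring
  -- choose a generic shift
  have hfin := good_push hAff i γ c B hB
  obtain ⟨τ, hτ1, hτ2, hτ3⟩ : ∃ τ : ℝ, α i * τ < 0 ∧ |τ| < δ ∧ Good (push Φ i γ (c + τ)) B := by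
    rcases lt_or_gt_of_ne hi0 with hneg | hpos
    · have hinf : (Set.Ioo 0 δ).Infinite := Set.Ioo_infinite hδ
      obtain ⟨τ, h1, h2⟩ := hinf.exists_notMem_finite hfin
      refine ⟨τ, mul_neg_of_neg_of_pos hneg h1.1, ?_, ?_⟩
      · rw [abs_of_pos h1.1]; exact h1.2
      · simpa using h2
    · have hinf : (Set.Ioo (-δ) 0).Infinite := Set.Ioo_infinite (by linarith)
      obtain ⟨τ, h1, h2⟩ := hinf.exists_notMem_finite hfin
      refine ⟨τ, mul_neg_of_pos_of_neg hpos h1.2, ?_, ?_⟩
      · rw [abs_of_neg h1.2]; linarith [h1.1]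
      · simpa using h2
  refine ⟨push Φ i γ (c + τ), aff_push hAff hiI hγ0 _, hτ3, fun g hg x hx => ?_⟩
  set p := ctr g with hp
  -- the new point
  set v : ℝ := ∑ j, γ j * x j + (c + τ) with hv
  set y : Fin d → ℝ := Function.update x i v with hy
  have hΦ : push Φ i γ (c + τ) x = Φ y := rfl
  rw [hΦ]
  -- distances
  have hsub : ∀ z : Fin d → ℝ, ∑ j ∈ Iᶜ, |z j - p j| =
      |z i - p i| + ∑ j ∈ (insert i I)ᶜ, |z j - p j| := by
    intro z
    have : Iᶜ = insert i (insert i I)ᶜ := by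
      ext j
      simp only [Finset.mem_compl, Finset.mem_insert]
      by_cases h : j = i
      · subst h; simp [hiI]
      · simp [h]
    rw [this, Finset.sum_insert (by simp)]
  have hy' : ∑ j ∈ (insert i I)ᶜ, |y j - p j| = ∑ j ∈ (insert i I)ᶜ, |x j - p j| := by
    apply Finset.sum_congr rfl
    intro j hj
    rw [Finset.mem_compl, Finset.mem_insert, not_or] at hj
    rw [hy, Function.update_of_ne hj.1]
  have hyi : y i = v := by rw [hy, Function.update_self]
  -- the value at the centre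
  have h1 : |∑ j, γ j * p j + c - p i| = |∑ j, α j * p j + β - b| / |α i| := by
    rw [eq_div_iff (ne_of_gt hai), ← abs_mul, ← abs_neg]
    congr 1
    have := hψ p
    linear_combination -this
  have h2 : |∑ j, γ j * x j - ∑ j, γ j * p j| ≤ 1 * ∑ j ∈ (insert i I)ᶜ, |x j - p j| := by
    apply form_le hγ0
    intro j
    by_cases h : j = i
    · simp [hγ, h]
    · simp only [hγ, h, if_false]
      rw [abs_div, abs_neg, div_le_one hai]
      exact hi j
  have h3 := hδ' g hg
  have h4 : |v - p i| ≤ |∑ j, γ j * x j - ∑ j, γ j * p j| + |∑ j, γ j * p j + c - p i| + |τ| := by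
    have : v - p i = (∑ j, γ j * x j - ∑ j, γ j * p j) + (∑ j, γ j * p j + c - p i) + τ := by
      rw [hv]; ring
    rw [this]
    exact (abs_add_le _ _).trans (add_le_add_left (abs_add_le _ _) _)
  have h5 : ∑ j ∈ Iᶜ, |y j - p j| < r + w := by
    rw [hsub, hyi, hy']
    rw [h1] at h4
    have h3' : δ ≤ r - |∑ j, α j * p j + β - b| / |α i| := h3
    linarith
  obtain ⟨h6, h7⟩ := hQ g hg y h5
  refine ⟨⟨h6, ?_⟩, h7⟩
  show ∑ j, a j * Φ y j < b
  rw [hαβ, hy, sum_update]
  have := hψ x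
  have e : α i * (v - x i) = b - β - (∑ j, α j * x j - α i * x i) + α i * τ - α i * x i := by
    rw [hv]
    linear_combination this
  rw [e]
  linarith

end

end Pool.Agent.J4.H52.BSP
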